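import Pool.Agent.H21SS.Stmts

set_option autoImplicit false

open Real Set Metric Complex

namespace Pool.Agent.H21SS.Asm

theorem ci {E : Type} [NormedAddCommGroup E] {f : ℂ → E} (hf : ContinuousOn f (sphere 0 1)) :
    CircleIntegrable f 0 1 := hf.circleIntegrable zero_le_one

theorem inv_pow_cont (k : ℕ) : ContinuousOn (fun z : ℂ => (z ^ k)⁻¹) (sphere 0 1) := by
  refine ContinuousOn.inv₀ (by fun_prop) ?_
  intro z hz
  have h1 : z ≠ 0 := by
    intro h
    rw [h] at hz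
    simp at hz
  exact pow_ne_zero _ h1

theorem cf_add {F G : ℂ → ℂ} (hF : ContinuousOn F (sphere 0 1)) (hG : ContinuousOn G (sphere 0 1))
    (k : ℕ) : cf (fun z => F z + G z) k = cf F k + cf G k := by
  unfold cf
  have h := Real.circleAverage_fun_add (f₁ := fun z => F z * (z ^ k)⁻¹)
    (f₂ := fun z => G z * (z ^ k)⁻¹) (c := 0) (R := 1)
    (ci (hF.mul (inv_pow_cont k))) (ci (hG.mul (inv_pow_cont k)))
  rw [← h]
  congr 1
  funext z
  ring

theorem cf_mul_left (a : ℂ) (F : ℂ → ℂ) (k : ℕ) : cf (fun z => a * F z) k = a * cf F k := by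
  unfold cf
  have h := Real.circleAverage_fun_smul (a := a) (f := fun z => F z * (z ^ k)⁻¹) (c := 0) (R := 1)
  simp only [smul_eq_mul] at h
  rw [← h]
  congr 1
  funext z
  ring

theorem cf_congr {F G : ℂ → ℂ} (h : ∀ z : ℂ, ‖z‖ = 1 → F z = G z) (k : ℕ) : cf F k = cf G k := by
  unfold cf
  refine Real.circleAverage_congr_sphere ?_
  intro z hz
  simp only
  rw [h z (by simpa using hz)]

theorem cf_norm_le {F : ℂ → ℂ} (k : ℕ) :
    ‖cf F k‖ ≤ Real.circleAverage (fun z => ‖F z‖) 0 1 := by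
  unfold cf
  rw [Real.circleAverage_def, Real.circleAverage_def, norm_smul, smul_eq_mul, Real.norm_eq_abs,
    abs_of_pos (by positivity)]
  refine mul_le_mul_of_nonneg_left ?_ (by positivity)
  refine (intervalIntegral.norm_integral_le_integral_norm (by positivity)).trans (le_of_eq ?_)
  congr 1
  funext θ
  rw [norm_mul, norm_inv, norm_pow]
  simp

theorem cont_of_diff {F : ℂ → ℂ} {R : ℝ} (hR : 1 < R) (hF : DifferentiableOn ℂ F (ball 0 R)) :
    ContinuousOn F (sphere 0 1) := by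
  refine hF.continuousOn.mono ?_
  intro z hz
  rw [mem_sphere_zero_iff_norm] at hz
  rw [mem_ball_zero_iff, hz]
  exact hR

theorem expand2 {A : ℂ → ℂ} (hA : DifferentiableOn ℂ A (ball 0 1)) :
    ∃ B : ℂ → ℂ, DifferentiableOn ℂ B (ball 0 1) ∧
      ∀ w ∈ ball (0 : ℂ) 1, A w = A 0 + deriv A 0 * w + w ^ 2 * B w := by
  have hn : ball (0 : ℂ) 1 ∈ nhds (0 : ℂ) := ball_mem_nhds _ one_pos
  have h1 := (Complex.differentiableOn_dslope hn).2 hA
  have h2 := (Complex.differentiableOn_dslope hn).2 h1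
  refine ⟨dslope (dslope A 0) 0, h2, fun w _ => ?_⟩
  have e1 := sub_smul_dslope A 0 w
  have e2 := sub_smul_dslope (dslope A 0) 0 w
  rw [dslope_same] at e2
  simp only [sub_zero, smul_eq_mul] at e1 e2
  linear_combination (-1 : ℂ) * e1 - w * e2

/-- `log ((1+w)/(1-w))` -/
noncomputable def Φ (w : ℂ) : ℂ := Complex.log ((1 + w) / (1 - w))

theorem one_sub_ne {w : ℂ} (hw : ‖w‖ < 1) : (1 : ℂ) - w ≠ 0 := by
  intro h
  have h1 : w = 1 := by linear_combination -h
  rw [h1] at hw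
  simp at hw

theorem cay_re {w : ℂ} (hw : ‖w‖ < 1) : 0 < ((1 + w) / (1 - w)).re := by
  rw [Complex.div_re]
  have h1 : 0 < Complex.normSq (1 - w) := Complex.normSq_pos.2 (one_sub_ne hw)
  rw [← add_div]
  refine div_pos ?_ h1
  have h2 : Complex.normSq w < 1 := by
    rw [Complex.normSq_eq_norm_sq]
    have := norm_nonneg w
    nlinarith
  rw [Complex.normSq_apply] at h2
  simp only [Complex.add_re, Complex.one_re, Complex.sub_re, Complex.add_im, Complex.one_im,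
    Complex.sub_im]
  nlinarith

theorem Φ_diff : DifferentiableOn ℂ Φ (ball 0 1) := by
  intro w hw
  rw [mem_ball_zero_iff] at hw
  have h1 : (1 + w) / (1 - w) ∈ Complex.slitPlane := Or.inl (cay_re hw)
  refine DifferentiableAt.differentiableWithinAt ?_
  unfold Φ
  refine DifferentiableAt.clog ?_ h1
  exact DifferentiableAt.div (by fun_prop) (by fun_prop) (one_sub_ne hw)

theorem Φ_zero : Φ 0 = 0 := by
  unfold Φ
  simp

theorem Φ_deriv : HasDerivAt Φ 2 0 := by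
  have h1 : HasDerivAt (fun w : ℂ => (1 + w) / (1 - w)) 2 0 := by
    have h2 : HasDerivAt (fun w : ℂ => 1 + w) 1 0 := by
      simpa using (hasDerivAt_id (0 : ℂ)).const_add 1
    have h3 : HasDerivAt (fun w : ℂ => 1 - w) (-1) 0 := by
      simpa using (hasDerivAt_id (0 : ℂ)).const_sub 1
    have h4 : HasDerivAt (fun w : ℂ => (1 + w) / (1 - w))
        ((1 * (1 - 0) - (1 + 0) * -1) / (1 - 0) ^ 2) 0 := h2.div h3 (by simp)
    have e : ((1 * (1 - 0) - (1 + 0) * -1) / (1 - 0) ^ 2 : ℂ) = 2 := by norm_num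
    rw [e] at h4
    exact h4
  have h5 : HasDerivAt (fun w : ℂ => Complex.log ((1 + w) / (1 - w)))
      (2 / ((1 + 0) / (1 - 0))) 0 := h1.clog (by simp)
  have e : (2 / ((1 + 0) / (1 - 0)) : ℂ) = 2 := by norm_num
  rw [e] at h5
  exact h5

theorem Φ_im (w : ℂ) : (Φ w).im = Complex.arg ((1 + w) / (1 - w)) := by
  unfold Φ
  rw [Complex.log_im]

theorem arg_le {w : ℂ} (hw : ‖w‖ < 1) : |Complex.arg ((1 + w) / (1 - w))| ≤ π / 2 :=
  Complex.abs_arg_le_pi_div_two_iff.2 (cay_re hw).le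

theorem cf_const (hC : TaskC) (a : ℂ) (k : ℕ) (hk : 1 ≤ k) : cf (fun _ => a) k = 0 := by
  have h := (hC (fun _ => a) (fun _ => a) 2 (by norm_num) (by fun_prop) (by fun_prop)).1 k
  rw [h]
  unfold tc
  rw [iteratedDeriv_const, if_neg (by omega)]
  simp

theorem cf_const0 (a : ℂ) : cf (fun _ => a) 0 = a := by
  unfold cf
  simp [Real.circleAverage_const]

theorem pow_half {z : ℂ} {N : ℕ} {R : ℝ} (hR : R ^ N ≤ 2) (hN : 1 ≤ N) (hz : ‖z‖ < R) :
    z ^ N / 2 ∈ ball (0 : ℂ) 1 := by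
  rw [mem_ball_zero_iff, norm_div, norm_pow]
  have h1 : ‖z‖ ^ N < R ^ N := pow_lt_pow_left₀ hz (norm_nonneg _) (by omega)
  simp only [Complex.norm_ofNat]
  linarith

/-- coefficients of `A (z^N/2)` -/
theorem cf_comp (hC : TaskC) {A : ℂ → ℂ} (hA : DifferentiableOn ℂ A (ball 0 1)) {N : ℕ}
    (hN : 1 ≤ N) {R : ℝ} (hR1 : 1 < R) (hR : R ^ N ≤ 2) :
    cf (fun z => A (z ^ N / 2)) 0 = A 0 ∧ (∀ k, 1 ≤ k → k < N → cf (fun z => A (z ^ N / 2)) k = 0) ∧
      cf (fun z => A (z ^ N / 2)) N = deriv A 0 / 2 := by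
  obtain ⟨B, hB, hexp⟩ := expand2 hA
  have hmaps : ∀ z ∈ ball (0 : ℂ) R, z ^ N / 2 ∈ ball (0 : ℂ) 1 := fun z hz =>
    pow_half hR hN (mem_ball_zero_iff.1 hz)
  have hAd : DifferentiableOn ℂ (fun z => A (z ^ N / 2)) (ball 0 R) :=
    hA.comp (by fun_prop) hmaps
  have hBd : DifferentiableOn ℂ (fun z => B (z ^ N / 2) / 4) (ball 0 R) :=
    (hB.comp (t := ball (0:ℂ) 1) (f := fun z : ℂ => z ^ N / 2) (s := ball 0 R) (by fun_prop) hmaps).div_const 4
  have hsph : ∀ z : ℂ, ‖z‖ = 1 → z ^ N / 2 ∈ ball (0 : ℂ) 1 := fun z hz =>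
    hmaps z (by rw [mem_ball_zero_iff, hz]; exact hR1)
  have hdec : ∀ z : ℂ, ‖z‖ = 1 → A (z ^ N / 2) =
      (A 0 + deriv A 0 / 2 * z ^ N) + z ^ (2 * N) * (B (z ^ N / 2) / 4) := by
    intro z hz
    rw [hexp _ (hsph z hz)]
    ring
  have c1 : ContinuousOn (fun z : ℂ => A 0 + deriv A 0 / 2 * z ^ N) (sphere 0 1) := by fun_prop
  have c2 : ContinuousOn (fun z : ℂ => z ^ (2 * N) * (B (z ^ N / 2) / 4)) (sphere 0 1) :=
    ContinuousOn.mul (by fun_prop) (cont_of_diff hR1 hBd)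
  have hz2 : ∀ k, k < 2 * N → cf (fun z => z ^ (2 * N) * (B (z ^ N / 2) / 4)) k = 0 := by
    intro k hk
    exact (hC (fun z => B (z ^ N / 2) / 4) (fun _ => 0) R hR1 hBd (by fun_prop)).2.2.2.2.1 (2 * N) k hk
  have hmon0 : ∀ k, k < N → cf (fun z => deriv A 0 / 2 * z ^ N) k = 0 := by
    intro k hk
    have h := (hC (fun _ => deriv A 0 / 2) (fun _ => 0) R hR1 (by fun_prop) (by fun_prop)).2.2.2.2.1 N k hk
    refine (cf_congr (fun z _ => ?_) k).trans h
    ring
  have hmonN : cf (fun z => deriv A 0 / 2 * z ^ N) N = deriv A 0 / 2 := by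
    have h : cf (fun z => deriv A 0 / 2 * z ^ N) N =
        Real.circleAverage (fun _ : ℂ => deriv A 0 / 2) 0 1 := by
      unfold cf
      refine Real.circleAverage_congr_sphere ?_
      intro z hz
      have hz0 : z ≠ 0 := by
        intro h0
        rw [h0] at hz
        simp at hz
      simp only
      rw [mul_assoc, mul_inv_cancel₀ (pow_ne_zero _ hz0), mul_one]
    rw [h, Real.circleAverage_const]
  have hall : ∀ k, k < 2 * N → cf (fun z => A (z ^ N / 2)) k =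
      cf (fun _ => A 0) k + cf (fun z => deriv A 0 / 2 * z ^ N) k := by
    intro k hk
    rw [cf_congr hdec k, cf_add c1 c2, hz2 k hk, add_zero, cf_add (by fun_prop) (by fun_prop)]
  refine ⟨?_, ?_, ?_⟩
  · rw [hall 0 (by omega), cf_const0, hmon0 0 (by omega), add_zero]
  · intro k hk hkN
    rw [hall k (by omega), cf_const hC _ k hk, hmon0 k hkN, add_zero]
  · rw [hall N (by omega), cf_const hC _ N hN, hmonN, zero_add]

end Pool.Agent.H21SS.Asm
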