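import Pool.Agent.H21SS.Asm

set_option autoImplicit false

open Real Set Metric Complex

namespace Pool.Agent.H21SS.Asm

/-- continuity of the Poisson mean along the circle of radius `r` -/
theorem PP_cont {g : ℂ → ℝ} (hg : ContinuousOn g (sphere 0 1)) {r : ℝ} (hr0 : 0 < r) (hr1 : r < 1) :
    ContinuousOn (fun z : ℂ => PP g (r * z)) (sphere 0 1) := by
  have hne : ∀ (z : ℂ) (θ : ℝ), ‖z‖ = 1 → circleMap 0 1 θ - r * z ≠ 0 := by
    intro z θ hz h
    have h1 : circleMap 0 1 θ = r * z := sub_eq_zero.1 h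
    have h2 : ‖circleMap 0 1 θ‖ = 1 := by simp
    rw [h1, norm_mul, hz, Complex.norm_real, Real.norm_eq_abs, abs_of_pos hr0] at h2
    linarith
  rw [continuousOn_iff_continuous_domRestrict]
  have hmain : Continuous (fun z : sphere (0:ℂ) 1 => (2 * π)⁻¹ • ∫ θ in (0:ℝ)..2 * π,
      (fun ζ : ℂ => (‖ζ‖ ^ 2 - ‖(r : ℂ) * z‖ ^ 2) / ‖ζ - r * z‖ ^ 2 * g ζ) (circleMap 0 1 θ)) := by
    refine Continuous.const_smul (intervalIntegral.continuous_parametric_intervalIntegral_of_continuous'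
      (μ := MeasureTheory.volume) (f := fun (z : sphere (0:ℂ) 1) (θ : ℝ) =>
        (‖circleMap 0 1 θ‖ ^ 2 - ‖(r : ℂ) * z‖ ^ 2) / ‖circleMap 0 1 θ - r * z‖ ^ 2 *
          g (circleMap 0 1 θ)) ?_ 0 (2 * π)) (2 * π)⁻¹
    have hgc : Continuous (fun p : sphere (0:ℂ) 1 × ℝ => g (circleMap 0 1 p.2)) := by
      refine hg.comp_continuous (by fun_prop) ?_
      intro p
      simp
    refine Continuous.mul (Continuous.div (by fun_prop) (by fun_prop) ?_) hgc
    intro p
    have := hne p.1 p.2 (by simpa using p.1.2)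
    exact pow_ne_zero _ (norm_ne_zero_iff.2 this)
  exact hmain

theorem core0 (hK0 : TaskK0) (hK1 : TaskK1) (hK2 : TaskK2) (hK3 : TaskK3) (hE : TaskE)
    (hC : TaskC) (hS : TaskS) {L G : ℂ → ℂ} {R α ℓ : ℝ} {N : ℕ} (hR : 1 < R)
    (hL : DifferentiableOn ℂ L (ball 0 R)) (hG : DifferentiableOn ℂ G (ball 0 R))
    (hL0 : L 0 = 0) (hG0 : G 0 = 1) (hb : ∀ z ∈ ball (0 : ℂ) R, |(L z).im| ≤ π / 2)
    (hode : ∀ z ∈ ball (0 : ℂ) R, z * deriv G z = (Complex.exp (α * L z) - 1) * G z)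
    (hα : 0 < α) (hα1 : α ≤ 1 / 200) (hN : 1 ≤ N) (hℓ : cf L N = (ℓ : ℂ)) (hℓ0 : 0 ≤ ℓ) :
    N * ‖cf G N‖ ≤ 2 * α := by
  have hN0 : N ≠ 0 := by omega
  obtain ⟨r, hr0, hrN⟩ : ∃ r : ℝ, 0 < r ∧ r ^ N = 1 / 2 :=
    ⟨(1 / 2 : ℝ) ^ ((1 : ℝ) / N), by positivity, by
      rw [← Real.rpow_natCast, ← Real.rpow_mul (by norm_num), one_div_mul_cancel
        (by exact_mod_cast hN0), Real.rpow_one]⟩
  have hr1 : r < 1 := by
    by_contra h
    push Not at h
    have := one_le_pow₀ h (n := N)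
    rw [hrN] at this
    norm_num at this
  obtain ⟨R', hR'1, hR'R, hR'N⟩ : ∃ R' : ℝ, 1 < R' ∧ R' ≤ R ∧ R' ^ N ≤ 2 := by
    refine ⟨min R r⁻¹, lt_min hR ((one_lt_inv₀ hr0).2 hr1), min_le_left _ _, ?_⟩
    calc (min R r⁻¹) ^ N ≤ (r⁻¹) ^ N :=
          pow_le_pow_left₀ (le_min (by linarith) (by positivity)) (min_le_right _ _) N
      _ = 2 := by rw [inv_pow, hrN]; norm_num
  have hmapr : ∀ z ∈ ball (0 : ℂ) R, (r : ℂ) * z ∈ ball (0 : ℂ) R := by
    intro z hz
    rw [mem_ball_zero_iff] at hz ⊢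
    rw [norm_mul, Complex.norm_real, Real.norm_eq_abs, abs_of_pos hr0]
    have := norm_nonneg z
    nlinarith
  have hsub : ball (0 : ℂ) R' ⊆ ball 0 R := ball_subset_ball hR'R
  set Lr : ℂ → ℂ := fun z => L (r * z) with hLr
  set Gr : ℂ → ℂ := fun z => G (r * z) with hGr
  have hLrd : DifferentiableOn ℂ Lr (ball 0 R) := hL.comp (by fun_prop) hmapr
  have hGrd : DifferentiableOn ℂ Gr (ball 0 R) := hG.comp (by fun_prop) hmapr
  set q : ℂ → ℂ := fun z => Complex.exp (α * Lr z) with hq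
  have hqd : DifferentiableOn ℂ q (ball 0 R) := (hLrd.const_mul _).cexp
  have hmapN : ∀ z ∈ ball (0 : ℂ) R', z ^ N / 2 ∈ ball (0 : ℂ) 1 := fun z hz =>
    pow_half hR'N hN (mem_ball_zero_iff.1 hz)
  have hΦd : DifferentiableOn ℂ (fun z => Φ (z ^ N / 2)) (ball 0 R') :=
    Φ_diff.comp (by fun_prop) hmapN
  set V : ℂ → ℂ := fun z => Lr z - Φ (z ^ N / 2) with hV
  have hVd : DifferentiableOn ℂ V (ball 0 R') := (hLrd.mono hsub).sub hΦd
  have hV0 : V 0 = 0 := by
    simp only [hV, hLr, mul_zero, hL0, zero_pow hN0, zero_div, Φ_zero, sub_zero]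
  have hrz : ∀ z : ℂ, ((r : ℂ) * z) ^ N = z ^ N / 2 := by
    intro z
    rw [mul_pow]
    have : ((r : ℂ)) ^ N = 1 / 2 := by
      rw [← Complex.ofReal_pow, hrN]
      norm_num
    rw [this]
    ring
  have hVim : ∀ z : ℂ, (V z).im = (L (r * z)).im -
      Complex.arg ((1 + (r * z) ^ N) / (1 - (r * z) ^ N)) := by
    intro z
    rw [hrz]
    simp only [hV, hLr, Complex.sub_im, Φ_im]
  have hVb : ∀ z : ℂ, ‖z‖ = 1 → |(V z).im| ≤ π := by
    intro z hz
    have h1 : z ∈ ball (0 : ℂ) R' := by rw [mem_ball_zero_iff, hz]; exact hR'1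
    have h2 := hb _ (hmapr z (hsub h1))
    have h3 := arg_le (w := z ^ N / 2) (mem_ball_zero_iff.1 (hmapN z h1))
    rw [hVim, hrz]
    rw [abs_le] at h2 h3 ⊢
    constructor <;> linarith [h2.1, h2.2, h3.1, h3.2]
  have hVim' : ∀ z : ℂ, (V z).im = (L (r * z)).im - Complex.arg ((1 + z ^ N / 2) / (1 - z ^ N / 2)) := by
    intro z
    rw [hVim, hrz]
  set M2 : ℝ := Real.circleAverage (fun z => (V z).im ^ 2) 0 1 with hM2
  obtain ⟨hE1, hE2⟩ := hE V R' α hR'1 hVd hV0 hVb hα hα1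
  -- the square mean
  set g : ℂ → ℝ := fun ζ => π / 2 * |(ζ ^ N).im| - (L ζ).im * (ζ ^ N).im with hg
  have hLc : ContinuousOn L (sphere 0 1) := cont_of_diff hR hL
  have hgc : ContinuousOn g (sphere 0 1) := by
    refine ContinuousOn.sub (by fun_prop) (ContinuousOn.mul ?_ (by fun_prop))
    exact Complex.continuous_im.comp_continuousOn hLc
  have hVc : ContinuousOn V (sphere 0 1) := cont_of_diff hR'1 hVd
  have hM2le : M2 ≤ 10 * π / 3 * (1 - ℓ / 2) := by
    have h1 : M2 ≤ Real.circleAverage (fun z => 10 * π / 3 * PP g (r * z)) 0 1 := by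
      refine Real.circleAverage_mono (ci ?_) (ci ?_) ?_
      · exact (Complex.continuous_im.comp_continuousOn hVc).pow 2
      · exact (PP_cont hgc hr0 hr1).const_smul (10 * π / 3)
      · intro z hz
        have hz1 : ‖z‖ = 1 := by simpa using hz
        rw [hVim]
        have h2 := hK1 hK0 L R N hR hL (fun w hw => hb w (by rw [mem_ball_zero_iff, hw]; exact hR))
          hN (r * z) (by
            rw [norm_mul, hz1, mul_one, Complex.norm_real, Real.norm_eq_abs, abs_of_pos hr0, hrN])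
        exact h2
    have h2 : Real.circleAverage (fun z => 10 * π / 3 * PP g (r * z)) 0 1 =
        10 * π / 3 * Real.circleAverage (fun z => PP g (r * z)) 0 1 := by
      have h := Real.circleAverage_fun_smul (a := 10 * π / 3) (f := fun z : ℂ => PP g (r * z))
        (c := 0) (R := 1)
      simpa [smul_eq_mul] using h
    rw [h2, hK2 g r hgc hr0 hr1, hK3 L R N hR hL hN, hℓ, Complex.ofReal_re] at h1
    exact h1
  have hM20 : 0 ≤ M2 := Real.circleAverage_nonneg_of_nonneg (fun z _ => sq_nonneg _)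
  have hpi := Real.pi_pos
  have hpi4 := Real.pi_lt_d2
  have hℓ2 : ℓ ≤ 2 := by
    by_contra h
    push Not at h
    nlinarith
  -- coefficients
  set e : ℂ → ℂ := fun z => Complex.exp (α * V z) with he
  have hed : DifferentiableOn ℂ e (ball 0 R') := (hVd.const_mul _).cexp
  set A : ℂ → ℂ := fun w => Complex.exp (α * Φ w) with hA
  have hAd : DifferentiableOn ℂ A (ball 0 1) := (Φ_diff.const_mul _).cexp
  have hA0 : A 0 = 1 := by simp [hA, Φ_zero]
  have hA1 : deriv A 0 = 2 * α := by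
    have h1 : HasDerivAt A (Complex.exp (α * Φ 0) * (α * 2)) 0 := (Φ_deriv.const_mul (α : ℂ)).cexp
    rw [h1.deriv, Φ_zero]
    simp
    ring
  obtain ⟨a0, a1, aN⟩ := cf_comp hC hAd hN hR'1 hR'N
  obtain ⟨b0, b1, bN⟩ := cf_comp hC Φ_diff hN hR'1 hR'N
  have hAN : DifferentiableOn ℂ (fun z => A (z ^ N / 2)) (ball 0 R') := hAd.comp (by fun_prop) hmapN
  have hqe : ∀ z : ℂ, q z = e z * A (z ^ N / 2) := by
    intro z
    simp only [hq, he, hA, hV]
    rw [← Complex.exp_add]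
    congr 1
    ring
  have hprod : ∀ k, cf q k = ∑ j ∈ Finset.range (k + 1), cf e j * cf (fun z => A (z ^ N / 2)) (k - j) := by
    intro k
    rw [cf_congr (fun z _ => hqe z) k]
    exact (hC e (fun z => A (z ^ N / 2)) R' hR'1 hed hAN).2.1 k
  have hlow : ∀ k, k < N → cf q k = cf e k := by
    intro k hk
    rw [hprod k, Finset.sum_range_succ, Nat.sub_self, a0, hA0, mul_one]
    have : ∑ j ∈ Finset.range k, cf e j * cf (fun z => A (z ^ N / 2)) (k - j) = 0 := by
      refine Finset.sum_eq_zero fun j hj => ?_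
      rw [Finset.mem_range] at hj
      rw [a1 (k - j) (by omega) (by omega), mul_zero]
    rw [this, zero_add]
  have he0 : cf e 0 = 1 := by
    have h := (hC e e R' hR'1 hed hed).1 0
    rw [h]
    unfold tc
    simp [he, hV0]
  have htop : cf q N = cf e N + α := by
    rw [hprod N, Finset.sum_range_succ, Nat.sub_self, a0, hA0, mul_one]
    have : ∑ j ∈ Finset.range N, cf e j * cf (fun z => A (z ^ N / 2)) (N - j) = α := by
      rw [Finset.sum_eq_single_of_mem 0 (Finset.mem_range.2 (by omega))]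
      · rw [he0, one_mul, Nat.sub_zero, aN, hA1]
        ring
      · intro j hj hj0
        rw [Finset.mem_range] at hj
        rw [a1 (N - j) (by omega) (by omega), mul_zero]
    rw [this]
    ring
  have hVN : cf V N = ℓ / 2 - 1 := by
    have hc1 : ContinuousOn (fun z => (-1 : ℂ) * Φ (z ^ N / 2)) (sphere 0 1) :=
      continuousOn_const.mul (cont_of_diff hR'1 hΦd)
    have h1 : cf V N = cf Lr N + (-1 : ℂ) * cf (fun z => Φ (z ^ N / 2)) N := by
      rw [← cf_mul_left, ← cf_add (cont_of_diff hR hLrd) hc1]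
      refine cf_congr (fun z _ => ?_) N
      simp only [hV]
      ring
    have h2 : cf Lr N = (r : ℂ) ^ N * cf L N :=
      (hC L L R hR hL hL).2.2.2.2.2 r N hr0 hr1.le
    rw [h1, h2, bN, Φ_deriv.deriv, hℓ, ← Complex.ofReal_pow, hrN]
    push_cast
    ring
  have heN : cf e N = α * (ℓ / 2 - 1) + cf (fun z => Complex.exp (α * V z) - 1 - α * V z) N := by
    have c1 : ContinuousOn (fun z => (1 : ℂ) + α * V z) (sphere 0 1) := by
      exact ContinuousOn.add continuousOn_const (hVc.const_smul (α : ℂ))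
    have c2 : ContinuousOn (fun z => Complex.exp (α * V z) - 1 - α * V z) (sphere 0 1) := by
      refine ContinuousOn.sub (ContinuousOn.sub ?_ continuousOn_const) (hVc.const_smul (α : ℂ))
      exact (hVc.const_smul (α : ℂ)).cexp
    have h1 : cf e N = cf (fun z => (1 : ℂ) + α * V z) N +
        cf (fun z => Complex.exp (α * V z) - 1 - α * V z) N := by
      rw [← cf_add c1 c2]
      refine cf_congr (fun z _ => ?_) N
      simp only [he]
      ring
    have hc2 : ContinuousOn (fun z => (α : ℂ) * V z) (sphere 0 1) := continuousOn_const.mul hVc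
    rw [h1, cf_add continuousOn_const hc2, cf_const hC 1 N hN, zero_add]
    have h2 : cf (fun z => (α : ℂ) * V z) N = α * cf V N := cf_mul_left _ _ _
    rw [hVN] at h2
    rw [h2]
  -- the sum of the squares
  set H2 : ℝ := ∑ k ∈ Finset.Ico 1 N, ‖cf q k‖ ^ 2 with hH2
  have hH2le : H2 ≤ 10 * α ^ 2 * M2 := by
    have hed1 : DifferentiableOn ℂ (fun z => e z - 1) (ball 0 R') := hed.sub_const 1
    have h1 := (hC (fun z => e z - 1) e R' hR'1 hed1 hed).2.2.2.1 (Finset.Ico 1 N)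
    refine le_trans (le_of_eq ?_) (h1.trans hE1)
    refine Finset.sum_congr rfl fun k hk => ?_
    rw [Finset.mem_Ico] at hk
    rw [hlow k hk.2]
    have h2 : cf (fun z => e z - 1) k = cf e k + cf (fun _ => (-1 : ℂ)) k := by
      rw [← cf_add (cont_of_diff hR'1 hed) continuousOn_const]
      refine cf_congr (fun z _ => ?_) k
      ring
    rw [h2, cf_const hC _ k hk.1, add_zero]
  have hH2small : H2 ≤ 1 / 100 := by
    refine hH2le.trans ?_
    have h1 : M2 ≤ 10 * π / 3 := by nlinarith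
    have h2 : α ^ 2 ≤ (1 / 200) ^ 2 := by gcongr
    have h3 : 10 * α ^ 2 * M2 ≤ 10 * (1 / 200) ^ 2 * (10 * π / 3) := by gcongr
    refine h3.trans ?_
    nlinarith
  -- the recursion
  have hGr0 : cf Gr 0 = 1 := by
    have h := (hC Gr Gr R hR hGrd hGrd).1 0
    rw [h]
    unfold tc
    simp [hGr, hG0]
  have hq0 : cf q 0 = 1 := by
    have h := (hC q q R hR hqd hqd).1 0
    rw [h]
    unfold tc
    simp [hq, hLr, hL0]
  have hrec : ∀ k : ℕ, 1 ≤ k → (k : ℂ) * cf Gr k = ∑ j ∈ Finset.Icc 1 k, cf q j * cf Gr (k - j) := by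
    intro k hk
    have hq1d : DifferentiableOn ℂ (fun z => q z - 1) (ball 0 R) := hqd.sub_const 1
    have h1 := (hC Gr Gr R hR hGrd hGrd).2.2.1 k
    have h2 : ∀ z : ℂ, ‖z‖ = 1 → z * deriv Gr z = (q z - 1) * Gr z := by
      intro z hz
      have hzR : z ∈ ball (0 : ℂ) R := by rw [mem_ball_zero_iff, hz]; exact hR
      have h3 : HasDerivAt Gr (deriv G (r * z) * r) z := by
        have h4 : HasDerivAt G (deriv G (r * z)) (r * z) :=
          ((hG _ (hmapr z hzR)).differentiableAt (isOpen_ball.mem_nhds (hmapr z hzR))).hasDerivAt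
        have h5 : HasDerivAt (fun z : ℂ => (r : ℂ) * z) r z := by
          simpa using (hasDerivAt_id z).const_mul (r : ℂ)
        exact h4.comp z h5
      rw [h3.deriv]
      have h6 := hode _ (hmapr z hzR)
      simp only [hq, hLr, hGr]
      rw [← h6]
      ring
    rw [← h1, cf_congr h2 k, (hC (fun z => q z - 1) Gr R hR hq1d hGrd).2.1 k,
      Finset.range_eq_Ico, Finset.sum_eq_sum_Ico_succ_bot (by omega)]
    have h7 : ∀ j, cf (fun z => q z - 1) j = cf q j + cf (fun _ => (-1 : ℂ)) j := by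
      intro j
      rw [← cf_add (cont_of_diff hR hqd) continuousOn_const]
      refine cf_congr (fun z _ => ?_) j
      ring
    rw [h7 0, hq0, cf_const0]
    have h8 : (1 : ℂ) + -1 = 0 := by norm_num
    rw [h8, zero_mul, zero_add, zero_add]
    have h9 : Finset.Ico 1 (k + 1) = Finset.Icc 1 k := by
      ext j
      simp only [Finset.mem_Ico, Finset.mem_Icc]
      omega
    rw [h9]
    refine Finset.sum_congr rfl fun j hj => ?_
    rw [Finset.mem_Icc] at hj
    rw [h7 j, cf_const hC _ j hj.1, add_zero]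
  have hfin := hS (cf Gr) (cf q) N hN hGr0 hrec hH2small
  have hGrN : cf Gr N = (r : ℂ) ^ N * cf G N := (hC G G R hR hG hG).2.2.2.2.2 r N hr0 hr1.le
  have hrc : (r : ℂ) ^ N = ((1 / 2 : ℝ) : ℂ) := by rw [← Complex.ofReal_pow, hrN]
  have herr : ‖cf (fun z => Complex.exp (α * V z) - 1 - α * V z) N‖ ≤ 5 * α ^ 2 * M2 :=
    (cf_norm_le N).trans hE2
  have hqN : ‖cf q N‖ ≤ α * (ℓ / 2) + 5 * α ^ 2 * M2 := by
    have h1 : cf q N = ((α * (ℓ / 2) : ℝ) : ℂ) +
        cf (fun z => Complex.exp (α * V z) - 1 - α * V z) N := by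
      rw [htop, heN]
      push_cast
      ring
    rw [h1]
    refine (norm_add_le _ _).trans (add_le_add ?_ herr)
    rw [Complex.norm_real, Real.norm_eq_abs, abs_of_nonneg (by positivity)]
  have h1 : ‖(N : ℂ) * cf Gr N‖ ≤ α * (ℓ / 2) + 5 * α ^ 2 * M2 + 6 / 5 * (10 * α ^ 2 * M2) := by
    calc ‖(N : ℂ) * cf Gr N‖ = ‖cf q N + ((N : ℂ) * cf Gr N - cf q N)‖ := by congr 1; ring
      _ ≤ ‖cf q N‖ + ‖(N : ℂ) * cf Gr N - cf q N‖ := norm_add_le _ _
      _ ≤ _ := by
        have := hfin.trans (mul_le_mul_of_nonneg_left hH2le (by norm_num : (0:ℝ) ≤ 6 / 5))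
        linarith
  have h2 : ‖(N : ℂ) * cf Gr N‖ = N * ‖cf G N‖ / 2 := by
    rw [hGrN, hrc, norm_mul, norm_mul, Complex.norm_natCast, Complex.norm_real]
    norm_num
    ring
  rw [h2] at h1
  have h3 : 17 * α ^ 2 * M2 ≤ α * (1 - ℓ / 2) := by
    have h4 : 17 * α ^ 2 * M2 ≤ 17 * α ^ 2 * (10 * π / 3 * (1 - ℓ / 2)) := by gcongr
    refine h4.trans ?_
    have h5 : 0 ≤ 1 - ℓ / 2 := by linarith
    have h6 : 17 * α * (10 * π / 3) ≤ 1 := by nlinarith
    calc 17 * α ^ 2 * (10 * π / 3 * (1 - ℓ / 2)) = (17 * α * (10 * π / 3)) * (α * (1 - ℓ / 2)) := by ring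
      _ ≤ 1 * (α * (1 - ℓ / 2)) := by gcongr
      _ = _ := one_mul _
  nlinarith

end Pool.Agent.H21SS.Asm
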