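import Pool.Agent.H21SS.Asm2
import Pool.Agent.Helper202.Univ

set_option autoImplicit false

open Real Set Metric Complex

namespace Pool.Agent.H21SS.Asm

theorem cf_rot {F : ℂ → ℂ} {η : ℂ} (hη : ‖η‖ = 1) (N : ℕ) :
    cf (fun z => F (η * z)) N = η ^ N * cf F N := by
  have hη0 : η ≠ 0 := by
    intro h
    rw [h] at hη
    simp at hη
  obtain ⟨β, hβ⟩ : ∃ β : ℝ, η = Complex.exp (β * I) :=
    ⟨Complex.arg η, by
      have := Complex.norm_mul_exp_arg_mul_I η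
      rw [hη, Complex.ofReal_one, one_mul] at this
      exact this.symm⟩
  have hcm : ∀ θ : ℝ, circleMap 0 1 (θ + β) = η * circleMap 0 1 θ := by
    intro θ
    rw [hβ]
    simp only [circleMap, zero_add, Complex.ofReal_one, one_mul, ← Complex.exp_add]
    congr 1
    push_cast
    ring
  have h1 : cf F N = Real.circleAverage (fun z => F (η * z) * ((η * z) ^ N)⁻¹) 0 1 := by
    unfold cf
    rw [Real.circleAverage_eq_integral_add β, Real.circleAverage_def]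
    simp only [hcm]
  have h2 : (fun z => F (η * z) * ((η * z) ^ N)⁻¹) =
      fun z => (η ^ N)⁻¹ * (F (η * z) * (z ^ N)⁻¹) := by
    funext z
    rw [mul_pow, mul_inv]
    ring
  have h3 := Real.circleAverage_fun_smul (a := (η ^ N)⁻¹) (f := fun z => F (η * z) * (z ^ N)⁻¹)
    (c := 0) (R := 1)
  simp only [smul_eq_mul] at h3
  rw [h1, h2, h3]
  unfold cf
  rw [mul_inv_cancel_left₀ (pow_ne_zero _ hη0)]

theorem core1 (hK0 : TaskK0) (hK1 : TaskK1) (hK2 : TaskK2) (hK3 : TaskK3) (hE : TaskE)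
    (hC : TaskC) (hS : TaskS) {L G : ℂ → ℂ} {R α : ℝ} {N : ℕ} (hR : 1 < R)
    (hL : DifferentiableOn ℂ L (ball 0 R)) (hG : DifferentiableOn ℂ G (ball 0 R))
    (hL0 : L 0 = 0) (hG0 : G 0 = 1) (hb : ∀ z ∈ ball (0 : ℂ) R, |(L z).im| ≤ π / 2)
    (hode : ∀ z ∈ ball (0 : ℂ) R, z * deriv G z = (Complex.exp (α * L z) - 1) * G z)
    (hα : 0 < α) (hα1 : α ≤ 1 / 200) (hN : 1 ≤ N) :
    N * ‖cf G N‖ ≤ 2 * α := by
  obtain ⟨η, hη, hη1⟩ : ∃ η : ℂ, ‖η‖ = 1 ∧ η ^ N * cf L N = (‖cf L N‖ : ℂ) := by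
    by_cases hc : cf L N = 0
    · exact ⟨1, by simp, by simp [hc]⟩
    · obtain ⟨η, hη⟩ := IsAlgClosed.exists_pow_nat_eq ((‖cf L N‖ : ℂ) / cf L N)
        (show 0 < N by omega)
      refine ⟨η, ?_, ?_⟩
      · have h1 : ‖η‖ ^ N = 1 := by
          rw [← norm_pow, hη, norm_div, Complex.norm_real, norm_norm,
            div_self (norm_ne_zero_iff.2 hc)]
        exact (pow_eq_one_iff_of_nonneg (norm_nonneg _) (by omega)).1 h1
      · rw [hη, div_mul_cancel₀ _ hc]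
  have hmap : ∀ z ∈ ball (0 : ℂ) R, η * z ∈ ball (0 : ℂ) R := by
    intro z hz
    rw [mem_ball_zero_iff] at hz ⊢
    rw [norm_mul, hη, one_mul]
    exact hz
  have hLd : DifferentiableOn ℂ (fun z => L (η * z)) (ball 0 R) := hL.comp (by fun_prop) hmap
  have hGd : DifferentiableOn ℂ (fun z => G (η * z)) (ball 0 R) := hG.comp (by fun_prop) hmap
  have h := core0 hK0 hK1 hK2 hK3 hE hC hS (L := fun z => L (η * z)) (G := fun z => G (η * z))
    (R := R) (α := α) (ℓ := ‖cf L N‖) (N := N) hR hLd hGd (by simp [hL0]) (by simp [hG0])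
    (fun z hz => hb _ (hmap z hz)) ?_ hα hα1 hN ?_ (norm_nonneg _)
  · rw [cf_rot hη, norm_mul, norm_pow, hη, one_pow, one_mul] at h
    exact h
  · intro z hz
    have h3 : HasDerivAt (fun z => G (η * z)) (deriv G (η * z) * η) z := by
      have h4 : HasDerivAt G (deriv G (η * z)) (η * z) :=
        ((hG _ (hmap z hz)).differentiableAt (isOpen_ball.mem_nhds (hmap z hz))).hasDerivAt
      have h5 : HasDerivAt (fun z : ℂ => η * z) η z := by
        simpa using (hasDerivAt_id z).const_mul η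
      exact h4.comp z h5
    rw [h3.deriv]
    have h6 := hode _ (hmap z hz)
    rw [← h6]
    ring
  · rw [cf_rot hη, hη1]

theorem tc_dil {f : ℂ → ℂ} (hf : DifferentiableOn ℂ f (ball 0 1)) {ρ : ℝ} (h0 : 0 < ρ) (h1 : ρ ≤ 1)
    (n : ℕ) : tc (fun z => f (ρ * z)) n = (ρ : ℂ) ^ n * tc f n := by
  have hcd : ContDiffOn ℂ n f (ball 0 1) := hf.contDiffOn isOpen_ball
  have hmap : MapsTo ((ρ : ℂ) * ·) (ball (0 : ℂ) 1) (ball 0 1) := by
    intro z hz
    rw [mem_ball_zero_iff] at hz ⊢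
    simp only
    rw [norm_mul, Complex.norm_real, Real.norm_eq_abs, abs_of_pos h0]
    have := norm_nonneg z
    nlinarith
  have h0m : (0 : ℂ) ∈ ball (0 : ℂ) 1 := mem_ball_self one_pos
  have h := iteratedDerivWithin_comp_const_smul h0m isOpen_ball.uniqueDiffOn hcd (ρ : ℂ) hmap
  rw [iteratedDerivWithin_of_isOpen isOpen_ball h0m, mul_zero,
    iteratedDerivWithin_of_isOpen isOpen_ball h0m, smul_eq_mul] at h
  unfold tc
  rw [h]
  ring

theorem upper (hK0 : TaskK0) (hK1 : TaskK1) (hK2 : TaskK2) (hK3 : TaskK3) (hE : TaskE)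
    (hC : TaskC) (hS : TaskS) {α : ℝ} (hα : 0 < α) (hα1 : α ≤ 1 / 200) {f : ℂ → ℂ} (hf : SS α f)
    {n : ℕ} (hn : 2 ≤ n) : ‖tc f n‖ ≤ 2 * α / (n - 1) := by
  obtain ⟨hfd, hf0, hf1, hinj, harg⟩ := hf
  have h0m : (0 : ℂ) ∈ ball (0 : ℂ) 1 := mem_ball_self one_pos
  have hnb : ball (0 : ℂ) 1 ∈ nhds (0 : ℂ) := ball_mem_nhds _ one_pos
  -- G₀ = f / z
  set G₀ : ℂ → ℂ := dslope f 0 with hG₀
  have hG₀d : DifferentiableOn ℂ G₀ (ball 0 1) := (Complex.differentiableOn_dslope hnb).2 hfd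
  have hG₀0 : G₀ 0 = 1 := by rw [hG₀, dslope_same, hf1]
  have hfG : ∀ z, f z = z * G₀ z := by
    intro z
    have e1 := sub_smul_dslope f 0 z
    simp only [sub_zero, smul_eq_mul, hf0] at e1
    exact e1.symm
  have hG₀ne : ∀ z ∈ ball (0 : ℂ) 1, G₀ z ≠ 0 := by
    intro z hz h
    by_cases hz0 : z = 0
    · rw [hz0, hG₀0] at h
      exact one_ne_zero h
    · apply hz0
      refine hinj hz h0m ?_
      rw [hf0, hfG z, h, mul_zero]
  have hf'ne : ∀ z ∈ ball (0 : ℂ) 1, deriv f z ≠ 0 := fun z hz =>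
    Pool.Agent.Helper202.Univ.deriv_ne_zero isOpen_ball hfd hinj hz
  set q₀ : ℂ → ℂ := fun z => deriv f z / G₀ z with hq₀
  have hq₀d : DifferentiableOn ℂ q₀ (ball 0 1) := (hfd.deriv isOpen_ball).div hG₀d hG₀ne
  have hq₀0 : q₀ 0 = 1 := by simp only [hq₀]; rw [hf1, hG₀0, div_one]
  have hq₀ne : ∀ z ∈ ball (0 : ℂ) 1, q₀ z ≠ 0 := fun z hz => div_ne_zero (hf'ne z hz) (hG₀ne z hz)
  have hpi := Real.pi_pos
  have hq₀arg : ∀ z ∈ ball (0 : ℂ) 1, |Complex.arg (q₀ z)| < α * π / 2 := by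
    intro z hz
    by_cases hz0 : z = 0
    · rw [hz0, hq₀0, Complex.arg_one, abs_zero]
      positivity
    · have h1 : z * deriv f z / f z = q₀ z := by
        simp only [hq₀]
        rw [hfG z, mul_div_mul_left _ _ hz0]
      rw [← h1]
      exact harg z hz hz0
  have hslit : ∀ z ∈ ball (0 : ℂ) 1, q₀ z ∈ Complex.slitPlane := by
    intro z hz
    rw [Complex.mem_slitPlane_iff_arg]
    refine ⟨?_, hq₀ne z hz⟩
    intro h
    have h1 := hq₀arg z hz
    rw [h, abs_of_pos hpi] at h1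
    nlinarith
  set L₀ : ℂ → ℂ := fun z => Complex.log (q₀ z) / α with hL₀
  have hL₀d : DifferentiableOn ℂ L₀ (ball 0 1) := (hq₀d.clog hslit).div_const _
  have hαc : (α : ℂ) ≠ 0 := by exact_mod_cast hα.ne'
  have hL₀exp : ∀ z ∈ ball (0 : ℂ) 1, Complex.exp (α * L₀ z) = q₀ z := by
    intro z hz
    simp only [hL₀]
    rw [mul_div_cancel₀ _ hαc, Complex.exp_log (hq₀ne z hz)]
  have hL₀0 : L₀ 0 = 0 := by simp only [hL₀]; rw [hq₀0, Complex.log_one, zero_div]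
  have hL₀im : ∀ z ∈ ball (0 : ℂ) 1, |(L₀ z).im| ≤ π / 2 := by
    intro z hz
    have h1 : (L₀ z).im = Complex.arg (q₀ z) / α := by
      simp only [hL₀]
      rw [Complex.div_ofReal_im, Complex.log_im]
    rw [h1, abs_div, abs_of_pos hα, div_le_iff₀ hα]
    linarith [hq₀arg z hz]
  have hode₀ : ∀ z ∈ ball (0 : ℂ) 1, z * deriv G₀ z = (Complex.exp (α * L₀ z) - 1) * G₀ z := by
    intro z hz
    have hGz : HasDerivAt G₀ (deriv G₀ z) z :=
      ((hG₀d z hz).differentiableAt (isOpen_ball.mem_nhds hz)).hasDerivAt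
    have h1 : HasDerivAt (fun w => w * G₀ w) (1 * G₀ z + z * deriv G₀ z) z :=
      (hasDerivAt_id z).mul hGz
    have h2 : (fun w => w * G₀ w) = f := by
      funext w
      exact (hfG w).symm
    rw [h2] at h1
    rw [hL₀exp z hz]
    simp only [hq₀]
    rw [sub_mul, div_mul_cancel₀ _ (hG₀ne z hz), h1.deriv]
    ring
  -- dilation
  obtain ⟨N, rfl⟩ : ∃ N, n = N + 1 := ⟨n - 1, by omega⟩
  have hN : 1 ≤ N := by omega
  have key : ∀ ρ : ℝ, 0 < ρ → ρ < 1 → N * (ρ ^ N * ‖tc f (N + 1)‖) ≤ 2 * α := by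
    intro ρ hρ0 hρ1
    have hR : 1 < ρ⁻¹ := (one_lt_inv₀ hρ0).2 hρ1
    have hmap : ∀ z ∈ ball (0 : ℂ) ρ⁻¹, (ρ : ℂ) * z ∈ ball (0 : ℂ) 1 := by
      intro z hz
      rw [mem_ball_zero_iff] at hz ⊢
      rw [norm_mul, Complex.norm_real, Real.norm_eq_abs, abs_of_pos hρ0]
      calc ρ * ‖z‖ < ρ * ρ⁻¹ := by gcongr
        _ = 1 := mul_inv_cancel₀ hρ0.ne'
    have hLd : DifferentiableOn ℂ (fun z => L₀ (ρ * z)) (ball 0 ρ⁻¹) := hL₀d.comp (by fun_prop) hmap
    have hGd : DifferentiableOn ℂ (fun z => G₀ (ρ * z)) (ball 0 ρ⁻¹) := hG₀d.comp (by fun_prop) hmap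
    have h := core1 hK0 hK1 hK2 hK3 hE hC hS (L := fun z => L₀ (ρ * z)) (G := fun z => G₀ (ρ * z))
      (R := ρ⁻¹) (α := α) (N := N) hR hLd hGd (by simp [hL₀0]) (by simp [hG₀0])
      (fun z hz => hL₀im _ (hmap z hz)) ?_ hα hα1 hN
    · have hFd : DifferentiableOn ℂ (fun z => f (ρ * z)) (ball 0 ρ⁻¹) := hfd.comp (by fun_prop) hmap
      have h1 : cf (fun z => f (ρ * z)) (N + 1) = (ρ : ℂ) ^ (N + 1) * tc f (N + 1) := by
        rw [(hC (fun z => f (ρ * z)) (fun z => f (ρ * z)) ρ⁻¹ hR hFd hFd).1 (N + 1),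
          tc_dil hfd hρ0 hρ1.le]
      have h2 : cf (fun z => f (ρ * z)) (N + 1) = ρ * cf (fun z => G₀ (ρ * z)) N := by
        rw [← cf_mul_left]
        unfold cf
        refine Real.circleAverage_congr_sphere ?_
        intro z hz
        have hz0 : z ≠ 0 := by
          intro h0
          rw [h0] at hz
          simp at hz
        simp only
        rw [hfG, pow_succ, mul_inv]
        field_simp
      have hρc : (ρ : ℂ) ≠ 0 := by exact_mod_cast hρ0.ne'
      have h3 : cf (fun z => G₀ (ρ * z)) N = (ρ : ℂ) ^ N * tc f (N + 1) := by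
        rw [h2, pow_succ] at h1
        refine mul_left_cancel₀ hρc ?_
        rw [h1]
        ring
      rw [h3, norm_mul, norm_pow, Complex.norm_real, Real.norm_eq_abs, abs_of_pos hρ0] at h
      exact h
    · intro z hz
      have h3 : HasDerivAt (fun z => G₀ (ρ * z)) (deriv G₀ (ρ * z) * ρ) z := by
        have h4 : HasDerivAt G₀ (deriv G₀ (ρ * z)) (ρ * z) :=
          ((hG₀d _ (hmap z hz)).differentiableAt (isOpen_ball.mem_nhds (hmap z hz))).hasDerivAt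
        have h5 : HasDerivAt (fun z : ℂ => (ρ : ℂ) * z) ρ z := by
          simpa using (hasDerivAt_id z).const_mul (ρ : ℂ)
        exact h4.comp z h5
      rw [h3.deriv]
      have h6 := hode₀ _ (hmap z hz)
      rw [← h6]
      ring
  have hlim : N * (1 ^ N * ‖tc f (N + 1)‖) ≤ 2 * α := by
    have hcont : Filter.Tendsto (fun ρ : ℝ => N * (ρ ^ N * ‖tc f (N + 1)‖))
        (nhdsWithin 1 (Iio 1)) (nhds (N * (1 ^ N * ‖tc f (N + 1)‖))) := by
      refine Filter.Tendsto.mono_left ?_ nhdsWithin_le_nhds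
      exact (Continuous.tendsto (by fun_prop) 1)
    refine le_of_tendsto hcont ?_
    have h1 : Ioo (0 : ℝ) 1 ∈ nhdsWithin 1 (Iio 1) := Ioo_mem_nhdsLT one_pos
    filter_upwards [h1] with ρ hρ
    exact key ρ hρ.1 hρ.2
  rw [one_pow, one_mul] at hlim
  have hNpos : (0 : ℝ) < N := by exact_mod_cast (by omega : 0 < N)
  push_cast
  rw [add_sub_cancel_right, le_div_iff₀ hNpos]
  linarith

end Pool.Agent.H21SS.Asm
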