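import Pool.Agent.H21SS.Stmts

set_option autoImplicit false

open Real Set Metric Complex

namespace Pool.Agent.H21SS.E

theorem sinh_ge {v : ℝ} (hv : 0 ≤ v) : v * Real.exp (v / 2) / 2 ≤ Real.sinh v := by
  have h1 : Real.sinh v = 2 * Real.sinh (v / 2) * Real.cosh (v / 2) := by
    rw [← Real.sinh_two_mul]; congr 1; ring
  have h2 : v / 2 ≤ Real.sinh (v / 2) := Real.self_le_sinh_iff.2 (by linarith)
  have h3 : Real.exp (v / 2) / 2 ≤ Real.cosh (v / 2) := by
    rw [Real.cosh_eq]
    have := Real.exp_pos (-(v / 2))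
    linarith
  have h4 : 0 < Real.exp (v / 2) := Real.exp_pos _
  rw [h1]
  have h5 : v / 2 * (Real.exp (v / 2) / 2) ≤ Real.sinh (v / 2) * Real.cosh (v / 2) :=
    mul_le_mul h2 h3 (by positivity) (le_trans (by linarith) h2)
  nlinarith [h5]

theorem cosh_ge {u : ℝ} (hu : 0 ≤ u) : u ^ 2 / 8 * Real.exp (u / 2) ≤ Real.cosh u - 1 := by
  have h1 : Real.cosh u = 1 + 2 * Real.sinh (u / 2) ^ 2 := by
    have h := Real.cosh_two_mul (u / 2)
    have h' := Real.cosh_sq (u / 2)
    have e : 2 * (u / 2) = u := by ring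
    rw [e] at h
    rw [h, h']; ring
  have h2 := sinh_ge (v := u / 2) (by linarith)
  have h3 : 0 ≤ u / 2 * Real.exp (u / 2 / 2) / 2 := by positivity
  have h4 : (u / 2 * Real.exp (u / 2 / 2) / 2) ^ 2 ≤ Real.sinh (u / 2) ^ 2 :=
    pow_le_pow_left₀ h3 h2 2
  have h5 : Real.exp (u / 2 / 2) ^ 2 = Real.exp (u / 2) := by
    rw [← Real.exp_nat_mul]; congr 1; push_cast; ring
  have h6 : (u / 2 * Real.exp (u / 2 / 2) / 2) ^ 2 = u ^ 2 / 16 * Real.exp (u / 2) := by
    rw [← h5]; ring
  rw [h1]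
  linarith

/-- the key pointwise bound -/
theorem ptw {x y α : ℝ} (hy : |y| ≤ π) (h0 : 0 < α) (h1 : α ≤ 1 / 200) :
    (x ^ 2 + y ^ 2) * Real.exp (2 * α * |x|) ≤
      (1 + π * α) * (144 * (Real.cosh (x / 3) * Real.cos (y / 3) - 1) + 9 * y ^ 2) := by
  have hx0 : 0 ≤ |x| := abs_nonneg x
  have hy0 : 0 ≤ |y| := abs_nonneg y
  -- x² e^{4α|x|}
  set P := x ^ 2 * Real.exp (4 * α * |x|) with hP
  have a1 : P ≤ 72 * (Real.cosh (x / 3) - 1) := by
    have h := cosh_ge (u := |x| / 3) (by positivity)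
    have e1 : Real.cosh (|x| / 3) = Real.cosh (x / 3) := by
      rw [← Real.cosh_abs (x / 3), abs_div, abs_of_pos (by norm_num : (0:ℝ) < 3)]
    rw [e1] at h
    have e2 : (|x| / 3) ^ 2 = x ^ 2 / 9 := by
      rw [div_pow, sq_abs]; norm_num
    rw [e2] at h
    have e3 : Real.exp (4 * α * |x|) ≤ Real.exp (|x| / 3 / 2) := by
      apply Real.exp_le_exp.2
      nlinarith
    have e4 : P ≤ x ^ 2 * Real.exp (|x| / 3 / 2) := by
      rw [hP]; exact mul_le_mul_of_nonneg_left e3 (sq_nonneg x)
    linarith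
  have c1 : 1 / 2 ≤ Real.cos (y / 3) := by
    have h : Real.cos (π / 3) ≤ Real.cos |y / 3| := by
      apply Real.cos_le_cos_of_nonneg_of_le_pi (abs_nonneg _)
      · linarith [Real.pi_pos]
      · rw [abs_div, abs_of_pos (by norm_num : (0:ℝ) < 3)]
        linarith
    rw [Real.cos_abs, Real.cos_pi_div_three] at h
    linarith
  have c2 : 1 - Real.cos (y / 3) ≤ y ^ 2 / 18 := by
    have h := Real.one_sub_sq_div_two_le_cos (x := y / 3)
    have e : (y / 3) ^ 2 / 2 = y ^ 2 / 18 := by ring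
    rw [e] at h
    linarith
  have c3 : 0 ≤ Real.cosh (x / 3) - 1 := by linarith [Real.one_le_cosh (x / 3)]
  have a2 : P ≤ 144 * (Real.cosh (x / 3) * Real.cos (y / 3) - 1) + 8 * y ^ 2 := by
    nlinarith [mul_nonneg c3 (sub_nonneg.2 c1)]
  -- x² e^{2α|x|} ≤ P
  have b1 : x ^ 2 * Real.exp (2 * α * |x|) ≤ P := by
    rw [hP]
    apply mul_le_mul_of_nonneg_left _ (sq_nonneg x)
    apply Real.exp_le_exp.2
    nlinarith [mul_nonneg h0.le hx0]
  -- y² e^{2α|x|}
  set E := Real.exp (2 * α * |x|) with hE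
  have hE0 : 0 < E := Real.exp_pos _
  have hE2 : E ^ 2 = Real.exp (4 * α * |x|) := by
    rw [hE, ← Real.exp_nat_mul]; congr 1; push_cast; ring
  have b2 : E - 1 ≤ 2 * α * |x| * E := by
    have h := Real.add_one_le_exp (-(2 * α * |x|))
    have h' : Real.exp (-(2 * α * |x|)) * E = 1 := by
      rw [hE, ← Real.exp_add]; simp
    nlinarith [mul_le_mul_of_nonneg_right h hE0.le]
  have b3 : y ^ 2 * E ≤ y ^ 2 + π * α * (y ^ 2 + P) := by
    have hyy : y ^ 2 = |y| ^ 2 := (sq_abs y).symm
    have hxx : x ^ 2 = |x| ^ 2 := (sq_abs x).symm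
    have hP' : P = |x| ^ 2 * E ^ 2 := by rw [hP, hE2, hxx]
    have s1 : y ^ 2 * (E - 1) ≤ |y| ^ 2 * (2 * α * |x| * E) := by
      rw [hyy]; exact mul_le_mul_of_nonneg_left b2 (by positivity)
    have s2 : |y| ^ 2 * (2 * α * |x| * E) ≤ π * α * (2 * |y| * (|x| * E)) := by
      have : 0 ≤ α * (2 * |y| * (|x| * E)) := by positivity
      nlinarith [mul_le_mul_of_nonneg_right hy this]
    have s3 : 2 * |y| * (|x| * E) ≤ |y| ^ 2 + (|x| * E) ^ 2 := by
      nlinarith [sq_nonneg (|y| - |x| * E)]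
    have s4 : π * α * (2 * |y| * (|x| * E)) ≤ π * α * (|y| ^ 2 + (|x| * E) ^ 2) :=
      mul_le_mul_of_nonneg_left s3 (by positivity)
    have s5 : (|x| * E) ^ 2 = P := by rw [hP']; ring
    rw [s5, ← hyy] at s4
    linarith
  have hp : 0 < π := Real.pi_pos
  have k1 : (x ^ 2 + y ^ 2) * E ≤ (1 + π * α) * (P + y ^ 2) := by
    nlinarith
  refine k1.trans ?_
  apply mul_le_mul_of_nonneg_left _ (by positivity)
  linarith

theorem exp_sub_one_sub_le {t : ℝ} (ht : 0 ≤ t) : Real.exp t - 1 - t ≤ t ^ 2 / 2 * Real.exp t := by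
  -- `f s = (s²/2) e^s - e^s + 1 + s` is monotone on `[0, ∞)`
  have hmono : MonotoneOn (fun s : ℝ => s ^ 2 / 2 * Real.exp s - Real.exp s + 1 + s) (Ici 0) := by
    apply monotoneOn_of_deriv_nonneg (convex_Ici 0)
    · fun_prop
    · fun_prop
    · intro s hs
      rw [interior_Ici, mem_Ioi] at hs
      have hd : HasDerivAt (fun s : ℝ => s ^ 2 / 2 * Real.exp s - Real.exp s + 1 + s)
          (2 * s / 2 * Real.exp s + s ^ 2 / 2 * Real.exp s - Real.exp s + 1) s := by
        have h1 : HasDerivAt (fun s : ℝ => s ^ 2 / 2) (2 * s / 2) s := by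
          have := (hasDerivAt_pow 2 s).div_const 2
          simpa using this
        have h2 := Real.hasDerivAt_exp s
        exact ((((h1.mul h2).sub h2).add_const 1).add (hasDerivAt_id' s))
      rw [hd.deriv]
      have h := Real.add_one_le_exp (-s)
      have h' : Real.exp (-s) * Real.exp s = 1 := by rw [← Real.exp_add]; simp
      have hpos := Real.exp_pos s
      nlinarith [mul_le_mul_of_nonneg_right h hpos.le, mul_nonneg (sq_nonneg s) hpos.le]
  have := hmono (mem_Ici.2 le_rfl) (mem_Ici.2 ht) ht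
  simp at this
  linarith

theorem e1 (w : ℂ) : ‖Complex.exp w - 1‖ ≤ ‖w‖ * Real.exp ‖w‖ := by
  have h := Complex.norm_exp_sub_sum_le_norm_mul_exp w 1
  simpa using h

theorem e2 (w : ℂ) : ‖Complex.exp w - 1 - w‖ ≤ ‖w‖ ^ 2 / 2 * Real.exp ‖w‖ := by
  have h := Complex.norm_exp_sub_sum_le_exp_norm_sub_sum w 2
  simp only [Finset.sum_range_succ, Finset.sum_range_zero, pow_zero, Nat.factorial, Nat.cast_one,
    div_one, pow_one, zero_add] at h
  have h2 := exp_sub_one_sub_le (norm_nonneg w)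
  have e : Complex.exp w - (1 + w) = Complex.exp w - 1 - w := by ring
  simp at h
  rw [e] at h
  linarith

/-- numerical consequences of `α ≤ 1/200` -/
theorem num {α : ℝ} (h0 : 0 < α) (h1 : α ≤ 1 / 200) :
    (1 + π * α) * 9 * Real.exp (2 * π * α) ≤ 10 := by
  have hp : π < 3.15 := Real.pi_lt_d2
  have hp0 : 0 < π := Real.pi_pos
  have ht : π * α ≤ 0.01575 := by nlinarith
  have ht0 : 0 < π * α := by positivity
  set t := π * α with htd
  have e : 2 * π * α = 2 * t := by rw [htd]; ring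
  rw [e]
  have hexp : Real.exp (2 * t) * (1 - 2 * t) ≤ 1 := by
    have h := Real.add_one_le_exp (-(2 * t))
    have h' : Real.exp (-(2 * t)) * Real.exp (2 * t) = 1 := by rw [← Real.exp_add]; simp
    nlinarith [mul_le_mul_of_nonneg_right h (Real.exp_pos (2 * t)).le]
  have hpos := Real.exp_pos (2 * t)
  have h2 : Real.exp (2 * t) ≤ 1.034 := by nlinarith
  nlinarith

theorem cint {f : ℂ → ℝ} (hf : ContinuousOn f (sphere 0 1)) : CircleIntegrable f 0 1 :=
  hf.circleIntegrable zero_le_one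

theorem main : TaskE := by
  intro V R α hR hV hV0 hy h0 h1
  have hsub : closedBall (0 : ℂ) 1 ⊆ ball 0 R := closedBall_subset_ball hR
  have hsph : sphere (0 : ℂ) 1 ⊆ ball 0 R := sphere_subset_closedBall.trans hsub
  have hVc : ContinuousOn V (sphere 0 1) := hV.continuousOn.mono hsph
  -- the mean of `cosh (V/3)`
  set H : ℂ → ℂ := fun z => (Complex.exp (V z / 3) + Complex.exp (-(V z / 3))) / 2 with hH
  have hHd : DifferentiableOn ℂ H (ball 0 R) := by
    rw [hH]
    have h3 : DifferentiableOn ℂ (fun z => V z / 3) (ball 0 R) := hV.div_const 3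
    exact (h3.cexp.add h3.neg.cexp).div_const 2
  have hHc : DiffContOnCl ℂ H (ball 0 |1|) := by
    apply DifferentiableOn.diffContOnCl
    rw [abs_one]
    exact hHd.mono (closure_ball_subset_closedBall.trans hsub)
  have hHm : Real.circleAverage H 0 1 = 1 := by
    rw [hHc.circleAverage, hH]
    simp [hV0]
  have hHint : CircleIntegrable H 0 1 :=
    (hHd.continuousOn.mono hsph).circleIntegrable zero_le_one
  have hre : Real.circleAverage (fun z => (H z).re) 0 1 = 1 := by
    have h := Complex.reCLM.circleAverage_comp_comm hHint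
    rw [hHm] at h
    simpa [Function.comp_def] using h
  have hHre : ∀ z, (H z).re = Real.cosh ((V z).re / 3) * Real.cos ((V z).im / 3) := by
    intro z
    have e3r : (V z / 3).re = (V z).re / 3 := by
      simp
    have e3i : (V z / 3).im = (V z).im / 3 := by
      simp
    simp only [hH]
    have e2 : ((Complex.exp (V z / 3) + Complex.exp (-(V z / 3))) / 2).re =
        ((Complex.exp (V z / 3)).re + (Complex.exp (-(V z / 3))).re) / 2 := by
      simp
    rw [e2, Complex.exp_re, Complex.exp_re, Complex.neg_re, Complex.neg_im, e3r, e3i, Real.cos_neg,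
      Real.cosh_eq]
    ring
  -- the mean of the bound
  set M := Real.circleAverage (fun z => (V z).im ^ 2) 0 1 with hM
  have hM0 : 0 ≤ M := circleAverage_nonneg_of_nonneg (fun z _ => sq_nonneg _)
  have himc : ContinuousOn (fun z => (V z).im) (sphere 0 1) :=
    Complex.continuous_im.comp_continuousOn hVc
  have hrec : ContinuousOn (fun z => (V z).re) (sphere 0 1) :=
    Complex.continuous_re.comp_continuousOn hVc
  have hHrec : ContinuousOn (fun z => (H z).re) (sphere 0 1) :=
    Complex.continuous_re.comp_continuousOn (hHd.continuousOn.mono hsph)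
  have hmean : ∀ c : ℝ, Real.circleAverage
      (fun z => c * (144 * ((H z).re - 1) + 9 * (V z).im ^ 2)) 0 1 = c * (9 * M) := by
    intro c
    have s1 : Real.circleAverage (fun z => (H z).re - 1) 0 1 = 0 := by
      rw [circleAverage_fun_sub (cint hHrec) (cint continuousOn_const), hre, circleAverage_const]
      ring
    have s2 : Real.circleAverage (fun z => 144 * ((H z).re - 1)) 0 1 = 0 := by
      have := circleAverage_fun_smul (a := (144 : ℝ)) (f := fun z => (H z).re - 1) (c := 0) (R := 1)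
      simp only [smul_eq_mul] at this
      rw [this, s1, mul_zero]
    have s3 : Real.circleAverage (fun z => 9 * (V z).im ^ 2) 0 1 = 9 * M := by
      have := circleAverage_fun_smul (a := (9 : ℝ)) (f := fun z => (V z).im ^ 2) (c := 0) (R := 1)
      simp only [smul_eq_mul] at this
      rw [this]
    have s4 := circleAverage_fun_smul (a := c)
      (f := fun z => 144 * ((H z).re - 1) + 9 * (V z).im ^ 2) (c := 0) (R := 1)
    simp only [smul_eq_mul] at s4
    rw [s4, circleAverage_fun_add, s2, s3, zero_add]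
    · exact cint (continuousOn_const.mul (hHrec.sub continuousOn_const))
    · exact cint (continuousOn_const.mul (himc.pow 2))
  have hcr : ∀ c : ℝ, CircleIntegrable
      (fun z => c * (144 * ((H z).re - 1) + 9 * (V z).im ^ 2)) 0 1 := fun c =>
    cint (continuousOn_const.mul ((continuousOn_const.mul (hHrec.sub continuousOn_const)).add
      (continuousOn_const.mul (himc.pow 2))))
  -- pointwise bounds
  have hnorm : ∀ z ∈ sphere (0 : ℂ) 1, ‖V z‖ ≤ |(V z).re| + π := fun z hz =>
    (Complex.norm_le_abs_re_add_abs_im _).trans (by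
      have := hy z (by simpa using hz)
      linarith)
  have hnsq : ∀ z, ‖V z‖ ^ 2 = (V z).re ^ 2 + (V z).im ^ 2 := fun z => by
    rw [← Complex.normSq_eq_norm_sq, Complex.normSq_apply]; ring
  have hw : ∀ z, ‖(α : ℂ) * V z‖ = α * ‖V z‖ := fun z => by
    rw [norm_mul, Complex.norm_real, Real.norm_of_nonneg h0.le]
  have hkey : ∀ z ∈ sphere (0 : ℂ) 1, ‖V z‖ ^ 2 * Real.exp (2 * (α * ‖V z‖)) ≤
      (1 + π * α) * Real.exp (2 * π * α) * (144 * ((H z).re - 1) + 9 * (V z).im ^ 2) := by
    intro z hz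
    have hyz : |(V z).im| ≤ π := hy z (by simpa using hz)
    have h := ptw (x := (V z).re) hyz h0 h1
    rw [← hHre, ← hnsq] at h
    have e : Real.exp (2 * (α * ‖V z‖)) ≤
        Real.exp (2 * α * |(V z).re|) * Real.exp (2 * π * α) := by
      rw [← Real.exp_add]
      apply Real.exp_le_exp.2
      nlinarith [mul_le_mul_of_nonneg_left (hnorm z hz) h0.le]
    calc ‖V z‖ ^ 2 * Real.exp (2 * (α * ‖V z‖))
        ≤ ‖V z‖ ^ 2 * (Real.exp (2 * α * |(V z).re|) * Real.exp (2 * π * α)) :=
          mul_le_mul_of_nonneg_left e (sq_nonneg _)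
      _ = (‖V z‖ ^ 2 * Real.exp (2 * α * |(V z).re|)) * Real.exp (2 * π * α) := by ring
      _ ≤ ((1 + π * α) * (144 * ((H z).re - 1) + 9 * (V z).im ^ 2)) * Real.exp (2 * π * α) :=
          mul_le_mul_of_nonneg_right h (Real.exp_pos _).le
      _ = _ := by ring
  have hwc : ContinuousOn (fun z => Complex.exp ((α : ℂ) * V z)) (sphere 0 1) :=
    (continuousOn_const.mul hVc).cexp
  have hnum := num h0 h1
  constructor
  · have hb : Real.circleAverage (fun z => ‖Complex.exp (α * V z) - 1‖ ^ 2) 0 1 ≤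
        Real.circleAverage (fun z => (α ^ 2 * ((1 + π * α) * Real.exp (2 * π * α))) *
          (144 * ((H z).re - 1) + 9 * (V z).im ^ 2)) 0 1 := by
      apply circleAverage_mono (cint ((hwc.sub continuousOn_const).norm.pow 2)) (hcr _)
      intro z hz
      rw [abs_one] at hz
      have hk := hkey z hz
      have h3 := e1 ((α : ℂ) * V z)
      rw [hw] at h3
      have h4 : ‖Complex.exp (α * V z) - 1‖ ^ 2 ≤ (α * ‖V z‖ * Real.exp (α * ‖V z‖)) ^ 2 :=
        pow_le_pow_left₀ (norm_nonneg _) h3 2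
      have h5 : (α * ‖V z‖ * Real.exp (α * ‖V z‖)) ^ 2 =
          α ^ 2 * (‖V z‖ ^ 2 * Real.exp (2 * (α * ‖V z‖))) := by
        have : Real.exp (α * ‖V z‖) ^ 2 = Real.exp (2 * (α * ‖V z‖)) := by
          rw [← Real.exp_nat_mul]; norm_num
        rw [← this]; ring
      rw [h5] at h4
      refine h4.trans ?_
      have := mul_le_mul_of_nonneg_left hk (sq_nonneg α)
      linarith
    rw [hmean] at hb
    refine hb.trans ?_
    have : α ^ 2 * ((1 + π * α) * Real.exp (2 * π * α)) * (9 * M) =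
        ((1 + π * α) * 9 * Real.exp (2 * π * α)) * (α ^ 2 * M) := by ring
    rw [this]
    have h6 : 0 ≤ α ^ 2 * M := by positivity
    nlinarith [mul_le_mul_of_nonneg_right hnum h6]
  · have hb : Real.circleAverage (fun z => ‖Complex.exp (α * V z) - 1 - α * V z‖) 0 1 ≤
        Real.circleAverage (fun z => (α ^ 2 / 2 * ((1 + π * α) * Real.exp (2 * π * α))) *
          (144 * ((H z).re - 1) + 9 * (V z).im ^ 2)) 0 1 := by
      apply circleAverage_mono (cint ((hwc.sub continuousOn_const).sub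
        (continuousOn_const.mul hVc)).norm) (hcr _)
      intro z hz
      rw [abs_one] at hz
      have hk := hkey z hz
      have h3 := e2 ((α : ℂ) * V z)
      rw [hw] at h3
      have h5 : (α * ‖V z‖) ^ 2 / 2 * Real.exp (α * ‖V z‖) ≤
          α ^ 2 / 2 * (‖V z‖ ^ 2 * Real.exp (2 * (α * ‖V z‖))) := by
        have e : Real.exp (α * ‖V z‖) ≤ Real.exp (2 * (α * ‖V z‖)) := by
          apply Real.exp_le_exp.2
          have : 0 ≤ α * ‖V z‖ := by positivity
          linarith
        have := mul_le_mul_of_nonneg_left e (show 0 ≤ (α * ‖V z‖) ^ 2 / 2 by positivity)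
        linarith
      refine (h3.trans h5).trans ?_
      have := mul_le_mul_of_nonneg_left hk (show 0 ≤ α ^ 2 / 2 by positivity)
      linarith
    rw [hmean] at hb
    refine hb.trans ?_
    have : α ^ 2 / 2 * ((1 + π * α) * Real.exp (2 * π * α)) * (9 * M) =
        ((1 + π * α) * 9 * Real.exp (2 * π * α)) * (α ^ 2 * M / 2) := by ring
    rw [this]
    have h6 : 0 ≤ α ^ 2 * M / 2 := by positivity
    nlinarith [mul_le_mul_of_nonneg_right hnum h6]

end Pool.Agent.H21SS.E
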