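import Pool.Agent.H21SS.Stmts

/-! Proof of `TaskK1` (project H21SS). -/

set_option autoImplicit false

open Real Set Metric Complex

namespace Pool.Agent.H21SS.K1

/-- The Poisson kernel. -/
noncomputable def Pk (z ζ : ℂ) : ℝ := (‖ζ‖ ^ 2 - ‖z‖ ^ 2) / ‖ζ - z‖ ^ 2

theorem PP_eq (g : ℂ → ℝ) (z : ℂ) : PP g z = Real.circleAverage (fun ζ => Pk z ζ * g ζ) 0 1 := rfl

theorem ne_of_sphere {z ζ : ℂ} (hz : ‖z‖ < 1) (hζ : ζ ∈ sphere (0 : ℂ) 1) : ζ - z ≠ 0 := by
  intro h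
  rw [sub_eq_zero] at h
  subst h
  rw [mem_sphere_zero_iff_norm] at hζ
  linarith

theorem continuousOn_Pk {z : ℂ} (hz : ‖z‖ < 1) : ContinuousOn (Pk z) (sphere 0 1) := by
  unfold Pk
  refine ContinuousOn.div (by fun_prop) (by fun_prop) fun ζ hζ => ?_
  exact pow_ne_zero _ (norm_ne_zero_iff.2 (ne_of_sphere hz hζ))

theorem Pk_nonneg {z ζ : ℂ} (hz : ‖z‖ < 1) (hζ : ζ ∈ sphere (0 : ℂ) 1) : 0 ≤ Pk z ζ := by
  rw [mem_sphere_zero_iff_norm] at hζ
  unfold Pk
  refine div_nonneg ?_ (by positivity)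
  rw [hζ]
  nlinarith [norm_nonneg z]

theorem integrable_Pk_mul {z : ℂ} (hz : ‖z‖ < 1) {g : ℂ → ℝ} (hg : CircleIntegrable g 0 1) :
    CircleIntegrable (fun ζ => Pk z ζ * g ζ) 0 1 := by
  have h := hg.continuousOn_mul (f := g) (g := Pk z) (by simpa using continuousOn_Pk hz)
  exact h

theorem integrable_Pk_mul' {z : ℂ} (hz : ‖z‖ < 1) {g : ℂ → ℝ}
    (hg : ContinuousOn g (sphere 0 1)) : CircleIntegrable (fun ζ => Pk z ζ * g ζ) 0 1 :=
  integrable_Pk_mul hz (hg.circleIntegrable zero_le_one)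

/-- Poisson formula for the imaginary part. -/
theorem PP_im {F : ℂ → ℂ} (hF : DiffContOnCl ℂ F (ball 0 1)) (hFc : ContinuousOn F (sphere 0 1))
    {z : ℂ} (hz : ‖z‖ < 1) : PP (fun ζ => (F ζ).im) z = (F z).im := by
  have h := hF.circleAverage_poissonKernel_smul' (w := z) (by simpa using hz)
  simp only [sub_zero] at h
  have hc : CircleIntegrable (fun ζ => Pk z ζ • F ζ) 0 1 :=
    ((continuousOn_Pk hz).smul hFc).circleIntegrable zero_le_one
  have h2 := Complex.imCLM.circleAverage_comp_comm hc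
  rw [show Real.circleAverage (fun ζ => Pk z ζ • F ζ) 0 1 = F z from h] at h2
  rw [PP_eq]
  rw [show (F z).im = Complex.imCLM (F z) from rfl, ← h2]
  congr 1
  funext ζ
  simp

/-- Poisson formula for the real part. -/
theorem PP_re {F : ℂ → ℂ} (hF : DiffContOnCl ℂ F (ball 0 1)) (hFc : ContinuousOn F (sphere 0 1))
    {z : ℂ} (hz : ‖z‖ < 1) : PP (fun ζ => (F ζ).re) z = (F z).re := by
  have h := hF.circleAverage_poissonKernel_smul' (w := z) (by simpa using hz)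
  simp only [sub_zero] at h
  have hc : CircleIntegrable (fun ζ => Pk z ζ • F ζ) 0 1 :=
    ((continuousOn_Pk hz).smul hFc).circleIntegrable zero_le_one
  have h2 := Complex.reCLM.circleAverage_comp_comm hc
  rw [show Real.circleAverage (fun ζ => Pk z ζ • F ζ) 0 1 = F z from h] at h2
  rw [PP_eq]
  rw [show (F z).re = Complex.reCLM (F z) from rfl, ← h2]
  congr 1
  funext ζ
  simp

/-- The kernel. -/
noncomputable def Kf (b : ℝ) (N : ℕ) (ζ : ℂ) : ℂ :=
  (1 + (b : ℂ) ^ 2 * (ζ ^ N) ^ 2) / (1 - (b : ℂ) ^ 2 * (ζ ^ N) ^ 2)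

theorem pointwise {b : ℝ} (hb0 : 0 < b) (hb1 : b < 1) {w : ℂ} (hw : ‖w‖ = 1) :
    0 ≤ ((1 + (b : ℂ) ^ 2 * w ^ 2) / (1 - (b : ℂ) ^ 2 * w ^ 2)).re ∧
    1 ≤ |w.im| / ((1 - b ^ 2) / b) + ((1 - b ^ 2) / b) / 2 *
      ((1 + (b : ℂ) ^ 2 * w ^ 2) / (1 - (b : ℂ) ^ 2 * w ^ 2)).re := by
  have hxy : w.re ^ 2 + w.im ^ 2 = 1 := by
    have := Complex.sq_norm w
    rw [hw, Complex.normSq_apply] at this
    nlinarith
  set σ : ℝ := |w.im| with hσ
  have hσ0 : 0 ≤ σ := abs_nonneg _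
  have hσ2 : σ ^ 2 = w.im ^ 2 := sq_abs _
  have ht : 0 < 1 - b ^ 2 := by nlinarith
  have hnorm : Complex.normSq (1 - (b : ℂ) ^ 2 * w ^ 2) = (1 - b ^ 2) ^ 2 + 4 * b ^ 2 * σ ^ 2 := by
    rw [Complex.normSq_apply, hσ2]
    simp only [Complex.sub_re, Complex.sub_im, Complex.one_re, Complex.one_im, Complex.mul_re,
      Complex.mul_im, sq, Complex.ofReal_re, Complex.ofReal_im]
    have hx : w.re * w.re = 1 - w.im * w.im := by nlinarith
    ring_nf
    have hx2 : w.re ^ 2 = 1 - w.im ^ 2 := by nlinarith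
    have hx4 : w.re ^ 4 = (1 - w.im ^ 2) ^ 2 := by rw [← hx2]; ring
    rw [hx4, hx2]
    ring
  have hre : ((1 + (b : ℂ) ^ 2 * w ^ 2) / (1 - (b : ℂ) ^ 2 * w ^ 2)).re =
      (1 - b ^ 4) / ((1 - b ^ 2) ^ 2 + 4 * b ^ 2 * σ ^ 2) := by
    rw [Complex.div_re, hnorm, ← add_div]
    congr 1
    simp only [Complex.sub_re, Complex.sub_im, Complex.add_re, Complex.add_im, Complex.one_re,
      Complex.one_im, Complex.mul_re, Complex.mul_im, sq, Complex.ofReal_re, Complex.ofReal_im]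
    ring_nf
    have hx2 : w.re ^ 2 = 1 - w.im ^ 2 := by nlinarith
    have hx4 : w.re ^ 4 = (1 - w.im ^ 2) ^ 2 := by rw [← hx2]; ring
    rw [hx4, hx2]
    ring
  rw [hre]
  have hD : 0 < (1 - b ^ 2) ^ 2 + 4 * b ^ 2 * σ ^ 2 := by positivity
  have h1 : (1 - b ^ 2) / b / 2 * ((1 - b ^ 4) / ((1 - b ^ 2) ^ 2 + 4 * b ^ 2 * σ ^ 2)) ≥
      (1 - b ^ 2) ^ 2 / ((1 - b ^ 2) ^ 2 + 4 * b ^ 2 * σ ^ 2) := by
    rw [ge_iff_le, div_div, div_mul_div_comm, div_le_div_iff₀ hD (by positivity)]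
    have h2 : b * 2 ≤ 1 + b ^ 2 := by nlinarith [sq_nonneg (1 - b)]
    have h3 : (1 - b ^ 2) * (1 - b ^ 4) = (1 - b ^ 2) ^ 2 * (1 + b ^ 2) := by ring
    rw [h3]
    have h4 : 0 ≤ (1 - b ^ 2) ^ 2 * ((1 - b ^ 2) ^ 2 + 4 * b ^ 2 * σ ^ 2) := by positivity
    nlinarith
  have h5 : σ / ((1 - b ^ 2) / b) + (1 - b ^ 2) ^ 2 / ((1 - b ^ 2) ^ 2 + 4 * b ^ 2 * σ ^ 2) ≥ 1 := by
    rw [div_div_eq_mul_div, ge_iff_le, div_add_div _ _ ht.ne' hD.ne', le_div_iff₀ (by positivity)]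
    nlinarith [mul_nonneg (mul_nonneg hσ0 hb0.le) (sq_nonneg ((1 - b ^ 2) - 2 * b * σ))]
  refine ⟨div_nonneg ?_ hD.le, by linarith⟩
  have h6 : 1 - b ^ 4 = (1 - b ^ 2) * (1 + b ^ 2) := by ring
  rw [h6]
  positivity

/-- Choice of `b`. -/
theorem exists_b {t : ℝ} (ht : 0 < t) : ∃ b : ℝ, 0 < b ∧ b < 1 ∧ (1 - b ^ 2) / b = t := by
  have h0 : 0 ≤ t ^ 2 + 4 := by positivity
  have hs := Real.sq_sqrt h0
  have hs0 := Real.sqrt_nonneg (t ^ 2 + 4)
  have h1 : t < Real.sqrt (t ^ 2 + 4) := by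
    apply Real.lt_sqrt_of_sq_lt
    linarith
  refine ⟨(Real.sqrt (t ^ 2 + 4) - t) / 2, by linarith, ?_, ?_⟩
  · have : Real.sqrt (t ^ 2 + 4) < t + 2 := by
      rw [Real.sqrt_lt' (by linarith)]
      nlinarith
    linarith
  · rw [div_eq_iff (by linarith)]
    nlinarith

theorem Kf_bound {b : ℝ} (hb0 : 0 < b) (hb1 : b < 1) {N : ℕ} {z : ℂ} (hz : ‖z‖ ^ N = 1 / 2) :
    (Kf b N z).re ≤ 5 / 3 := by
  have hw : ‖(b : ℂ) ^ 2 * (z ^ N) ^ 2‖ ≤ 1 / 4 := by
    rw [norm_mul, norm_pow, norm_pow, norm_pow, hz, Complex.norm_real, Real.norm_eq_abs,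
      abs_of_pos hb0]
    nlinarith
  refine (Complex.re_le_norm _).trans ?_
  unfold Kf
  set w := (b : ℂ) ^ 2 * (z ^ N) ^ 2 with hwdef
  have h1 : ‖1 + w‖ ≤ 5 / 4 := (norm_add_le _ _).trans (by rw [norm_one]; linarith)
  have h2 : 3 / 4 ≤ ‖1 - w‖ := by
    have := norm_sub_norm_le 1 w
    rw [norm_one] at this
    linarith
  rw [norm_div, div_le_iff₀ (by linarith)]
  linarith

theorem Kf_den {b : ℝ} (hb0 : 0 < b) (hb1 : b < 1) {N : ℕ} {z : ℂ} (hz : ‖z‖ ≤ 1) :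
    (1 : ℂ) - (b : ℂ) ^ 2 * (z ^ N) ^ 2 ≠ 0 := by
  intro h
  have h1 : (1 : ℂ) = (b : ℂ) ^ 2 * (z ^ N) ^ 2 := sub_eq_zero.1 h
  have h2 := congrArg (fun x : ℂ => ‖x‖) h1
  simp only [norm_one, norm_mul, norm_pow, Complex.norm_real, Real.norm_eq_abs,
    abs_of_pos hb0] at h2
  have h3 : (‖z‖ ^ N) ^ 2 ≤ 1 := pow_le_one₀ (by positivity) (pow_le_one₀ (norm_nonneg _) hz)
  have h4 : b ^ 2 < 1 := by nlinarith
  nlinarith [sq_nonneg b]

theorem Kf_diff {b : ℝ} (hb0 : 0 < b) (hb1 : b < 1) (N : ℕ) :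
    DiffContOnCl ℂ (Kf b N) (ball 0 1) := by
  refine DifferentiableOn.diffContOnCl ?_
  rw [closure_ball _ one_ne_zero]
  unfold Kf
  intro z hz
  refine DifferentiableAt.differentiableWithinAt ?_
  refine DifferentiableAt.div (by fun_prop) (by fun_prop) ?_
  exact Kf_den hb0 hb1 (by simpa using hz)

theorem Kf_cont {b : ℝ} (hb0 : 0 < b) (hb1 : b < 1) (N : ℕ) :
    ContinuousOn (Kf b N) (sphere 0 1) := by
  unfold Kf
  refine ContinuousOn.div (by fun_prop) (by fun_prop) ?_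
  intro z hz
  exact Kf_den hb0 hb1 (mem_sphere_zero_iff_norm.1 hz).le

theorem measurable_sgn : Measurable (fun x : ℝ => ((SignType.sign x : SignType) : ℝ)) := by
  have : (fun x : ℝ => ((SignType.sign x : SignType) : ℝ)) =
      fun x => if 0 < x then 1 else if x < 0 then -1 else 0 := by
    funext x
    rw [sign_apply]
    split_ifs <;> simp
  rw [this]
  exact Measurable.ite measurableSet_Ioi measurable_const
    (Measurable.ite measurableSet_Iio measurable_const measurable_const)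

theorem sgn_integrable (N : ℕ) :
    CircleIntegrable (fun ζ : ℂ => π / 2 * ((SignType.sign (ζ ^ N).im : SignType) : ℝ)) 0 1 := by
  rw [circleIntegrable_def]
  refine (intervalIntegrable_const (c := π / 2)).mono_fun ?_ ?_
  · refine (Measurable.aestronglyMeasurable ?_)
    have h1 : Measurable (fun θ : ℝ => ((circleMap 0 1 θ) ^ N).im) :=
      Complex.measurable_im.comp ((measurable_circleMap 0 1).pow_const N)
    exact (measurable_sgn.comp h1).const_mul _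
  · refine Filter.Eventually.of_forall fun θ => ?_
    simp only [Real.norm_eq_abs, abs_mul]
    have h2 : ∀ s : SignType, |((s : SignType) : ℝ)| ≤ 1 := by
      intro s; cases s <;> simp
    have h3 := h2 (SignType.sign ((circleMap 0 1 θ) ^ N).im)
    have h4 : 0 ≤ |π / 2| := abs_nonneg _
    calc |π / 2| * _ ≤ |π / 2| * 1 := mul_le_mul_of_nonneg_left h3 h4
      _ = _ := mul_one _

theorem delta_bound {σ l k t : ℝ} (ht : 0 < t) (hl : |l| ≤ π / 2)
    (hk : 1 ≤ |σ| / t + t / 2 * k) (hk0 : 0 ≤ k) :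
    |l - π / 2 * ((SignType.sign σ : SignType) : ℝ)| ≤
      t⁻¹ * (π / 2 * |σ| - l * σ) + π * t / 2 * k := by
  have hl' := abs_le.1 hl
  have hs : 0 ≤ |σ| / t := div_nonneg (abs_nonneg _) ht.le
  have htk : 0 ≤ t / 2 * k := by positivity
  have gen : ∀ d : ℝ, 0 ≤ d → d ≤ π → d ≤ d * (|σ| / t) + π * t / 2 * k := by
    intro d hd0 hd1
    have h1 : d * 1 ≤ d * (|σ| / t + t / 2 * k) := mul_le_mul_of_nonneg_left hk hd0
    have h2 : d * (t / 2 * k) ≤ π * (t / 2 * k) := mul_le_mul_of_nonneg_right hd1 htk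
    nlinarith
  rcases lt_trichotomy σ 0 with h | h | h
  · have h1 := gen (l + π / 2) (by linarith) (by linarith)
    rw [sign_neg h]
    have e0 : l - π / 2 * (((-1 : SignType) : SignType) : ℝ) = l + π / 2 := by
      simp
    rw [e0, abs_of_nonneg (by linarith)]
    have e1 : t⁻¹ * (π / 2 * |σ| - l * σ) = (l + π / 2) * (|σ| / t) := by
      rw [abs_of_neg h]
      field_simp
      ring
    rw [e1]
    exact h1
  · have h1 := gen (π / 2) (by positivity) (by linarith [Real.pi_pos])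
    subst h
    rw [_root_.sign_zero, SignType.coe_zero]
    simp only [mul_zero, sub_zero, abs_zero, zero_div, zero_add] at h1 ⊢
    linarith
  · have h1 := gen (π / 2 - l) (by linarith) (by linarith)
    rw [sign_pos h]
    have e0 : l - π / 2 * (((1 : SignType) : SignType) : ℝ) = -(π / 2 - l) := by
      simp
    rw [e0, abs_neg, abs_of_nonneg (by linarith)]
    have e1 : t⁻¹ * (π / 2 * |σ| - l * σ) = (π / 2 - l) * (|σ| / t) := by
      rw [abs_of_pos h]
      field_simp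
    rw [e1]
    exact h1

theorem main : TaskK1 := by
  intro hK0 L R N hR hL hbd hN z hz
  have hz1 : ‖z‖ < 1 := by
    by_contra h
    have := one_le_pow₀ (not_lt.1 h) (n := N)
    linarith
  -- regularity of `L`
  have hsub : closedBall (0 : ℂ) 1 ⊆ ball 0 R := closedBall_subset_ball hR
  have hLcl : DiffContOnCl ℂ L (ball 0 1) := by
    refine DifferentiableOn.diffContOnCl ?_
    rw [closure_ball _ one_ne_zero]
    exact hL.mono hsub
  have hLc : ContinuousOn L (sphere 0 1) := (hL.mono (sphere_subset_closedBall.trans hsub)).continuousOn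
  have hLim : ContinuousOn (fun ζ => (L ζ).im) (sphere 0 1) :=
    Complex.continuous_im.comp_continuousOn hLc
  set X : ℝ := PP (fun ζ => π / 2 * |(ζ ^ N).im| - (L ζ).im * (ζ ^ N).im) z with hX
  have hg3c : ContinuousOn (fun ζ : ℂ => π / 2 * |(ζ ^ N).im| - (L ζ).im * (ζ ^ N).im)
      (sphere 0 1) := by
    have h1 : Continuous fun ζ : ℂ => (ζ ^ N).im := by fun_prop
    exact ((continuous_const.mul h1.abs).continuousOn).sub (hLim.mul h1.continuousOn)
  have hg3nn : ∀ ζ ∈ sphere (0 : ℂ) 1, 0 ≤ π / 2 * |(ζ ^ N).im| - (L ζ).im * (ζ ^ N).im := by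
    intro ζ hζ
    have h1 := hbd ζ (mem_sphere_zero_iff_norm.1 hζ)
    have h2 : (L ζ).im * (ζ ^ N).im ≤ |(L ζ).im| * |(ζ ^ N).im| := by
      rw [← abs_mul]
      exact le_abs_self _
    have h3 : |(L ζ).im| * |(ζ ^ N).im| ≤ π / 2 * |(ζ ^ N).im| :=
      mul_le_mul_of_nonneg_right h1 (abs_nonneg _)
    linarith
  have hX0 : 0 ≤ X := by
    rw [hX, PP_eq]
    refine Real.circleAverage_nonneg_of_nonneg fun ζ hζ => ?_
    rw [abs_one] at hζ
    exact mul_nonneg (Pk_nonneg hz1 hζ) (hg3nn ζ hζ)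
  set y : ℝ := (L z).im - Complex.arg ((1 + z ^ N) / (1 - z ^ N)) with hy
  have hy1 : y = Real.circleAverage (fun ζ => Pk z ζ * (L ζ).im -
      Pk z ζ * (π / 2 * ((SignType.sign (ζ ^ N).im : SignType) : ℝ))) 0 1 := by
    rw [Real.circleAverage_fun_sub (integrable_Pk_mul' hz1 hLim)
      (integrable_Pk_mul hz1 (sgn_integrable N)), ← PP_eq, ← PP_eq, PP_im hLcl hLc hz1,
      ← hK0 N z hN hz1]
  have key : ∀ t : ℝ, 0 < t → |y| ≤ X / t + 5 * π / 6 * t := by
    intro t ht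
    obtain ⟨b, hb0, hb1, hbt⟩ := exists_b ht
    have hKre : ContinuousOn (fun ζ => (Kf b N ζ).re) (sphere 0 1) :=
      Complex.continuous_re.comp_continuousOn (Kf_cont hb0 hb1 N)
    have hint1 := integrable_Pk_mul' hz1 hg3c
    have hint2 := integrable_Pk_mul' hz1 hKre
    have hint1' : CircleIntegrable (fun ζ => t⁻¹ •
        (Pk z ζ * (π / 2 * |(ζ ^ N).im| - (L ζ).im * (ζ ^ N).im))) 0 1 :=
      hint1.const_smul (a := t⁻¹)
    have hint2' : CircleIntegrable (fun ζ => (π * t / 2) • (Pk z ζ * (Kf b N ζ).re)) 0 1 :=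
      hint2.const_smul (a := π * t / 2)
    have hintd : CircleIntegrable (fun ζ => Pk z ζ * (L ζ).im -
      Pk z ζ * (π / 2 * ((SignType.sign (ζ ^ N).im : SignType) : ℝ))) 0 1 :=
      (integrable_Pk_mul' hz1 hLim).sub (integrable_Pk_mul hz1 (sgn_integrable N))
    have hle : |y| ≤ Real.circleAverage (fun ζ => t⁻¹ •
        (Pk z ζ * (π / 2 * |(ζ ^ N).im| - (L ζ).im * (ζ ^ N).im)) +
        (π * t / 2) • (Pk z ζ * (Kf b N ζ).re)) 0 1 := by
      rw [hy1]
      refine Real.abs_circleAverage_le_circleAverage_abs.trans ?_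
      refine Real.circleAverage_mono hintd.abs
        (hint1'.add hint2') ?_
      intro ζ hζ
      rw [abs_one] at hζ
      have hP := Pk_nonneg hz1 hζ
      have hζ1 := mem_sphere_zero_iff_norm.1 hζ
      have hLb := hbd ζ hζ1
      have hwn : ‖ζ ^ N‖ = 1 := by rw [norm_pow, hζ1, one_pow]
      obtain ⟨hpw0, hpw⟩ := pointwise hb0 hb1 hwn
      rw [hbt] at hpw
      have hKdef : ((1 + (b : ℂ) ^ 2 * (ζ ^ N) ^ 2) / (1 - (b : ℂ) ^ 2 * (ζ ^ N) ^ 2)).re =
        (Kf b N ζ).re := rfl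
      rw [hKdef] at hpw hpw0
      have hδ := delta_bound ht hLb hpw hpw0
      set σ := (ζ ^ N).im with hσ
      set l := (L ζ).im with hl
      set k := (Kf b N ζ).re with hk
      have habs : |Pk z ζ * l - Pk z ζ * (π / 2 * ((SignType.sign σ : SignType) : ℝ))| =
          Pk z ζ * |l - π / 2 * ((SignType.sign σ : SignType) : ℝ)| := by
        rw [← mul_sub, abs_mul, abs_of_nonneg hP]
      show |Pk z ζ * l - Pk z ζ * (π / 2 * ((SignType.sign σ : SignType) : ℝ))| ≤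
        t⁻¹ * (Pk z ζ * (π / 2 * |σ| - l * σ)) + π * t / 2 * (Pk z ζ * k)
      rw [habs]
      calc Pk z ζ * |l - π / 2 * ((SignType.sign σ : SignType) : ℝ)|
          ≤ Pk z ζ * (t⁻¹ * (π / 2 * |σ| - l * σ) + π * t / 2 * k) :=
            mul_le_mul_of_nonneg_left hδ hP
        _ = _ := by ring
    rw [Real.circleAverage_fun_add hint1' hint2', Real.circleAverage_fun_smul,
      Real.circleAverage_fun_smul, ← PP_eq, ← PP_eq, PP_re (Kf_diff hb0 hb1 N)
      (Kf_cont hb0 hb1 N) hz1, ← hX] at hle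
    have h5 := Kf_bound hb0 hb1 hz
    have h6 : 0 < π * t / 2 := by positivity
    have h7 : (π * t / 2) * (Kf b N z).re ≤ (π * t / 2) * (5 / 3) :=
      mul_le_mul_of_nonneg_left h5 h6.le
    simp only [smul_eq_mul] at hle
    rw [div_eq_inv_mul]
    linarith
  -- optimisation
  by_cases hy0 : y = 0
  · rw [hy0]
    have : 0 ≤ 10 * π / 3 * X := by positivity
    simpa using this
  · have hyp : 0 < |y| := abs_pos.2 hy0
    have h1 := key (|y| / (5 * π / 3)) (by positivity)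
    have h2 : X / (|y| / (5 * π / 3)) = 5 * π / 3 * X / |y| := by
      field_simp
    have h3 : 5 * π / 6 * (|y| / (5 * π / 3)) = |y| / 2 := by
      field_simp
      norm_num
    rw [h2, h3] at h1
    have h4 : |y| / 2 ≤ 5 * π / 3 * X / |y| := by linarith
    rw [le_div_iff₀ hyp] at h4
    have h5 : |y| * |y| = y ^ 2 := by rw [← sq, sq_abs]
    nlinarith

end Pool.Agent.H21SS.K1
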