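import Pool.Agent.H21SS.Stmts

set_option autoImplicit false

open Real Set Metric Complex MeasureTheory

namespace Pool.Agent.H21SS.K2

open Pool.Agent.H21SS

lemma norm_symm (a b : ℂ) (r : ℝ) (ha : ‖a‖ = 1) (hb : ‖b‖ = 1) :
    ‖a - (r : ℂ) * b‖ ^ 2 = ‖b - (r : ℂ) * a‖ ^ 2 := by
  have e1 : (r : ℂ) * b = r • b := by simp
  have e2 : (r : ℂ) * a = r • a := by simp
  rw [e1, e2, norm_sub_sq_real, norm_sub_sq_real, real_inner_smul_right, real_inner_smul_right,
    norm_smul, norm_smul, ha, hb, real_inner_comm]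

lemma norm_pos_aux (a b : ℂ) (r : ℝ) (ha : ‖a‖ = 1) (hb : ‖b‖ = 1) (h0 : 0 < r) (h1 : r < 1) :
    0 < ‖a - (r : ℂ) * b‖ := by
  have h2 : ‖(r : ℂ) * b‖ = r := by
    rw [norm_mul, hb, mul_one, Complex.norm_real, Real.norm_of_nonneg h0.le]
  have h3 := norm_sub_norm_le a ((r : ℂ) * b)
  rw [ha, h2] at h3
  linarith

lemma norm_cm (θ : ℝ) : ‖circleMap 0 1 θ‖ = 1 := by simp

lemma inner_mean (r : ℝ) (h0 : 0 < r) (h1 : r < 1) (φ : ℝ) :
    (2 * π)⁻¹ * ∫ θ in (0 : ℝ)..2 * π,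
      (1 - r ^ 2) / ‖circleMap 0 1 φ - (r : ℂ) * circleMap 0 1 θ‖ ^ 2 = 1 := by
  have hw : ‖(r : ℂ) * circleMap 0 1 φ‖ = r := by
    rw [norm_mul, norm_cm, mul_one, Complex.norm_real, Real.norm_of_nonneg h0.le]
  have hb : (r : ℂ) * circleMap 0 1 φ ∈ ball (0 : ℂ) 1 := by
    rw [mem_ball_zero_iff, hw]; exact h1
  have hc : DiffContOnCl ℂ (fun _ : ℂ => (1 : ℂ)) (ball 0 1) := diffContOnCl_const
  have key := hc.circleAverage_poissonKernel_smul' hb
  rw [Real.circleAverage_def] at key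
  have e : ∀ θ : ℝ, ((‖circleMap 0 1 θ - 0‖ ^ 2 - ‖(r : ℂ) * circleMap 0 1 φ - 0‖ ^ 2) /
      ‖(circleMap 0 1 θ - 0) - ((r : ℂ) * circleMap 0 1 φ - 0)‖ ^ 2) • (1 : ℂ) =
      ((1 - r ^ 2) / ‖circleMap 0 1 φ - (r : ℂ) * circleMap 0 1 θ‖ ^ 2) • (1 : ℂ) := by
    intro θ
    rw [sub_zero, sub_zero, hw, norm_cm, one_pow,
      norm_symm (circleMap 0 1 φ) (circleMap 0 1 θ) r (norm_cm _) (norm_cm _)]
  simp_rw [e] at key
  rw [intervalIntegral.integral_smul_const, smul_smul] at key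
  have key2 := congrArg Complex.re key
  simpa using key2

theorem main : TaskK2 := by
  intro g r hg h0 h1
  have hg' : Continuous (fun φ : ℝ => g (circleMap 0 1 φ)) := by
    refine hg.comp_continuous (continuous_circleMap 0 1) (fun φ => ?_)
    rw [mem_sphere_zero_iff_norm, norm_cm]
  set k : ℝ → ℝ → ℝ := fun θ φ =>
    (1 - r ^ 2) / ‖circleMap 0 1 φ - (r : ℂ) * circleMap 0 1 θ‖ ^ 2 with hk
  have hkc : Continuous (fun p : ℝ × ℝ => k p.1 p.2) := by
    rw [hk]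
    refine Continuous.div continuous_const ?_ ?_
    · exact (((continuous_circleMap 0 1).comp continuous_snd).sub
        (continuous_const.mul ((continuous_circleMap 0 1).comp continuous_fst))).norm.pow 2
    · intro p
      have := norm_pos_aux (circleMap 0 1 p.2) (circleMap 0 1 p.1) r (norm_cm _) (norm_cm _) h0 h1
      positivity
  have e1 : ∀ θ : ℝ, PP g ((r : ℂ) * circleMap 0 1 θ) =
      ∫ φ in (0 : ℝ)..2 * π, (2 * π)⁻¹ * (k θ φ * g (circleMap 0 1 φ)) := by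
    intro θ
    unfold PP
    rw [Real.circleAverage_def, smul_eq_mul, ← intervalIntegral.integral_const_mul]
    refine intervalIntegral.integral_congr (fun φ _ => ?_)
    show (2 * π)⁻¹ * ((‖circleMap 0 1 φ‖ ^ 2 - ‖(r : ℂ) * circleMap 0 1 θ‖ ^ 2) /
      ‖circleMap 0 1 φ - (r : ℂ) * circleMap 0 1 θ‖ ^ 2 * g (circleMap 0 1 φ)) =
      (2 * π)⁻¹ * (k θ φ * g (circleMap 0 1 φ))
    have hw : ‖(r : ℂ) * circleMap 0 1 θ‖ = r := by
      rw [norm_mul, norm_cm, mul_one, Complex.norm_real, Real.norm_of_nonneg h0.le]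
    rw [hw, norm_cm, one_pow]
  rw [Real.circleAverage_def, Real.circleAverage_def]
  congr 1
  simp_rw [e1]
  rw [MeasureTheory.intervalIntegral_intervalIntegral_swap
    (F := fun θ φ => (2 * π)⁻¹ * (k θ φ * g (circleMap 0 1 φ)))]
  · refine intervalIntegral.integral_congr (fun φ _ => ?_)
    show ∫ θ in (0 : ℝ)..2 * π, (2 * π)⁻¹ * (k θ φ * g (circleMap 0 1 φ)) = g (circleMap 0 1 φ)
    have e2 : ∀ θ : ℝ, (2 * π)⁻¹ * (k θ φ * g (circleMap 0 1 φ)) =
        ((2 * π)⁻¹ * k θ φ) * g (circleMap 0 1 φ) := fun θ => by ring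
    simp_rw [e2]
    rw [intervalIntegral.integral_mul_const, intervalIntegral.integral_const_mul,
      inner_mean r h0 h1 φ, one_mul]
  · have hc : Continuous (Function.uncurry
        (fun θ φ => (2 * π)⁻¹ * (k θ φ * g (circleMap 0 1 φ)))) := by
      have h3 : Continuous (fun p : ℝ × ℝ => (2 * π)⁻¹ * (k p.1 p.2 * g (circleMap 0 1 p.2))) :=
        continuous_const.mul (hkc.mul (hg'.comp continuous_snd))
      exact h3
    refine (hc.continuousOn.integrableOn_compact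
      (isCompact_uIcc.prod isCompact_uIcc)).mono_set
      (prod_mono uIoc_subset_uIcc uIoc_subset_uIcc)

end Pool.Agent.H21SS.K2
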