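import Pool.Agent.H21SS.Stmts

set_option autoImplicit false

open Real Set Metric Complex

namespace Pool.Agent.H21SS.K3

lemma int_abs_sin (N : ℕ) (hN : 1 ≤ N) : ∫ θ in (0 : ℝ)..2 * π, |Real.sin (N * θ)| = 4 := by
  have hN1 : (1 : ℝ) ≤ N := by exact_mod_cast hN
  have hN0 : (N : ℝ) ≠ 0 := by linarith
  have h1 : ∫ θ in (0 : ℝ)..2 * π, |Real.sin (N * θ)| =
      (N : ℝ)⁻¹ • ∫ u in (N : ℝ) * 0..N * (2 * π), |Real.sin u| :=
    intervalIntegral.integral_comp_mul_left (fun u => |Real.sin u|) hN0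
  have hper : Function.Periodic (fun u : ℝ => |Real.sin u|) π := fun u => by
    simp [Real.sin_add_pi]
  have hcont : Continuous (fun u : ℝ => |Real.sin u|) := Real.continuous_sin.abs
  have h2 := hper.intervalIntegral_add_zsmul_eq (2 * N : ℤ) 0
    (fun a b => hcont.intervalIntegrable a b)
  have h3 : ∫ u in (0 : ℝ)..0 + π, |Real.sin u| = 2 := by
    rw [zero_add]
    have : ∫ u in (0 : ℝ)..π, |Real.sin u| = ∫ u in (0 : ℝ)..π, Real.sin u :=
      intervalIntegral.integral_congr (fun x hx => by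
        rw [uIcc_of_le Real.pi_pos.le] at hx
        exact abs_of_nonneg (Real.sin_nonneg_of_mem_Icc hx))
    rw [this, integral_sin]
    simp
    norm_num
  rw [h3] at h2
  rw [h1]
  have h4 : (N : ℝ) * (2 * π) = 0 + (2 * N : ℤ) • π := by
    rw [zsmul_eq_mul]; push_cast; ring
  rw [mul_zero, h4, h2, zsmul_eq_mul, smul_eq_mul]
  push_cast
  field_simp
  norm_num

lemma avg_abs (N : ℕ) (hN : 1 ≤ N) :
    Real.circleAverage (fun ζ : ℂ => |(ζ ^ N).im|) 0 1 = 2 / π := by
  rw [Real.circleAverage_def]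
  have h1 : ∀ θ : ℝ, |((circleMap 0 1 θ) ^ N).im| = |Real.sin (N * θ)| := by
    intro θ
    have : (circleMap 0 1 θ) ^ N = Complex.exp (((N * θ : ℝ) : ℂ) * Complex.I) := by
      rw [circleMap, zero_add, Complex.ofReal_one, one_mul, ← Complex.exp_nat_mul]
      congr 1
      push_cast
      ring
    rw [this, Complex.exp_ofReal_mul_I_im]
  simp_rw [h1]
  rw [int_abs_sin N hN, smul_eq_mul]
  field_simp
  norm_num

theorem main : TaskK3 := by
  intro L R N hR hL hN
  have hsub : sphere (0 : ℂ) 1 ⊆ ball 0 R := by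
    intro z hz
    rw [mem_sphere_zero_iff_norm] at hz
    rw [mem_ball_zero_iff]
    linarith
  have hLc : ContinuousOn L (sphere 0 1) := hL.continuousOn.mono hsub
  have hpow : ContinuousOn (fun z : ℂ => z ^ N) (sphere 0 1) := (continuous_pow N).continuousOn
  have hne : ∀ z ∈ sphere (0 : ℂ) 1, z ^ N ≠ 0 := by
    intro z hz
    rw [mem_sphere_zero_iff_norm] at hz
    exact pow_ne_zero _ (norm_ne_zero_iff.1 (by rw [hz]; exact one_ne_zero))
  have hinv : ContinuousOn (fun z : ℂ => (z ^ N)⁻¹) (sphere 0 1) := hpow.inv₀ hne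
  have c1 : ContinuousOn (fun z : ℂ => L z * (z ^ N)⁻¹) (sphere 0 1) := hLc.mul hinv
  have c2 : ContinuousOn (fun z : ℂ => L z * z ^ N) (sphere 0 1) := hLc.mul hpow
  have i1 : CircleIntegrable (fun z : ℂ => L z * (z ^ N)⁻¹) 0 1 := c1.circleIntegrable zero_le_one
  have i2 : CircleIntegrable (fun z : ℂ => L z * z ^ N) 0 1 := c2.circleIntegrable zero_le_one
  -- the two complex means
  have m1 : Real.circleAverage (fun z : ℂ => (L z * (z ^ N)⁻¹).re) 0 1 = (cf L N).re :=
    Complex.reCLM.circleAverage_comp_comm i1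
  have m2 : Real.circleAverage (fun z : ℂ => (L z * z ^ N).re) 0 1 = 0 := by
    have h1 : Real.circleAverage (fun z : ℂ => (L z * z ^ N).re) 0 1 =
        (Real.circleAverage (fun z : ℂ => L z * z ^ N) 0 1).re :=
      Complex.reCLM.circleAverage_comp_comm i2
    have h2 : Real.circleAverage (fun z : ℂ => L z * z ^ N) 0 1 = L 0 * 0 ^ N := by
      have hd : DiffContOnCl ℂ (fun z : ℂ => L z * z ^ N) (ball 0 |1|) := by
        rw [abs_one]
        refine DifferentiableOn.diffContOnCl ?_
        rw [closure_ball _ one_ne_zero]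
        refine DifferentiableOn.mul (hL.mono ?_) (by fun_prop)
        exact closedBall_subset_ball hR
      exact hd.circleAverage
    rw [h1, h2, zero_pow (by omega), mul_zero, Complex.zero_re]
  have i1' : CircleIntegrable (fun z : ℂ => (L z * (z ^ N)⁻¹).re) 0 1 :=
    (Complex.continuous_re.comp_continuousOn c1).circleIntegrable zero_le_one
  have i2' : CircleIntegrable (fun z : ℂ => (L z * z ^ N).re) 0 1 :=
    (Complex.continuous_re.comp_continuousOn c2).circleIntegrable zero_le_one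
  have i3 : CircleIntegrable (fun z : ℂ => |(z ^ N).im|) 0 1 :=
    (Complex.continuous_im.comp_continuousOn hpow).abs.circleIntegrable zero_le_one
  have key : EqOn (fun ζ : ℂ => π / 2 * |(ζ ^ N).im| - (L ζ).im * (ζ ^ N).im)
      (fun ζ : ℂ => ((π / 2) • |(ζ ^ N).im| - (1 / 2 : ℝ) • (L ζ * (ζ ^ N)⁻¹).re) +
        (1 / 2 : ℝ) • (L ζ * ζ ^ N).re) (sphere 0 |1|) := by
    intro ζ hζ
    rw [abs_one, mem_sphere_zero_iff_norm] at hζ
    have hn : ‖ζ ^ N‖ = 1 := by rw [norm_pow, hζ, one_pow]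
    have hc : (ζ ^ N)⁻¹ = (starRingEnd ℂ) (ζ ^ N) := by
      rw [Complex.inv_def, Complex.normSq_eq_norm_sq, hn]
      simp
    simp only [smul_eq_mul]
    rw [hc, Complex.mul_re, Complex.mul_re, Complex.conj_re, Complex.conj_im]
    ring
  rw [Real.circleAverage_congr_sphere key]
  have i3' : CircleIntegrable (fun z : ℂ => (π / 2) • |(z ^ N).im|) 0 1 := by
    refine ContinuousOn.circleIntegrable zero_le_one ?_
    exact ((Complex.continuous_im.comp_continuousOn hpow).abs).const_smul (π / 2)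
  have i1'' : CircleIntegrable (fun z : ℂ => (1 / 2 : ℝ) • (L z * (z ^ N)⁻¹).re) 0 1 := by
    refine ContinuousOn.circleIntegrable zero_le_one ?_
    exact (Complex.continuous_re.comp_continuousOn c1).const_smul (1 / 2 : ℝ)
  have i2'' : CircleIntegrable (fun z : ℂ => (1 / 2 : ℝ) • (L z * z ^ N).re) 0 1 := by
    refine ContinuousOn.circleIntegrable zero_le_one ?_
    exact (Complex.continuous_re.comp_continuousOn c2).const_smul (1 / 2 : ℝ)
  have i4 : CircleIntegrable (fun z : ℂ => (π / 2) • |(z ^ N).im| -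
      (1 / 2 : ℝ) • (L z * (z ^ N)⁻¹).re) 0 1 := by
    refine ContinuousOn.circleIntegrable zero_le_one ?_
    exact (((Complex.continuous_im.comp_continuousOn hpow).abs).const_smul (π / 2)).sub
      ((Complex.continuous_re.comp_continuousOn c1).const_smul (1 / 2 : ℝ))
  rw [Real.circleAverage_fun_add i4 i2'', Real.circleAverage_fun_sub i3' i1'',
    Real.circleAverage_fun_smul, Real.circleAverage_fun_smul, Real.circleAverage_fun_smul,
    avg_abs N hN, m1, m2]
  simp only [smul_eq_mul]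
  have := Real.pi_pos
  field_simp
  ring

end Pool.Agent.H21SS.K3
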