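import Pool.Agent.H21SS.Stmts

set_option autoImplicit false

/-!
The recursion inequality.
-/

namespace Pool.Agent.H21SS.S

open Finset

theorem step (g h : ℕ → ℂ) (N m : ℕ) (hm : 1 ≤ m) (hmN : m ≤ N) (g0 : g 0 = 1)
    (hrec : (m : ℂ) * g m = ∑ j ∈ Finset.Icc 1 m, h j * g (m - j)) :
    ‖(m : ℂ) * g m - h m‖ ^ 2 ≤
      (∑ k ∈ Finset.Ico 1 N, ‖h k‖ ^ 2) * (∑ k ∈ Finset.Ico 1 N, ‖g k‖ ^ 2) := by
  have e1 : (m : ℂ) * g m - h m = ∑ j ∈ Finset.Ico 1 m, h j * g (m - j) := by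
    have e2 : Finset.Icc 1 m = Finset.Ico 1 (m + 1) := by
      ext x
      simp only [Finset.mem_Icc, Finset.mem_Ico]
      omega
    rw [hrec, e2, Finset.sum_Ico_succ_top hm, Nat.sub_self, g0, mul_one, add_sub_cancel_right]
  rw [e1]
  have e3 : ‖∑ j ∈ Finset.Ico 1 m, h j * g (m - j)‖ ≤
      ∑ j ∈ Finset.Ico 1 m, ‖h j‖ * ‖g (m - j)‖ := by
    refine (norm_sum_le _ _).trans (le_of_eq ?_)
    exact Finset.sum_congr rfl fun j _ => norm_mul _ _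
  have e4 : (∑ j ∈ Finset.Ico 1 m, ‖h j‖ * ‖g (m - j)‖) ^ 2 ≤
      (∑ j ∈ Finset.Ico 1 m, ‖h j‖ ^ 2) * (∑ j ∈ Finset.Ico 1 m, ‖g (m - j)‖ ^ 2) :=
    Finset.sum_mul_sq_le_sq_mul_sq _ _ _
  have e5 : (∑ j ∈ Finset.Ico 1 m, ‖g (m - j)‖ ^ 2) = ∑ j ∈ Finset.Ico 1 m, ‖g j‖ ^ 2 := by
    have := Finset.sum_Ico_reflect (fun j => ‖g j‖ ^ 2) 1 (m := m) (n := m) (by omega)
    rw [this]
    congr 1
    congr 1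
    all_goals omega
  have hsub : Finset.Ico 1 m ⊆ Finset.Ico 1 N := Finset.Ico_subset_Ico le_rfl hmN
  have e6 : (∑ j ∈ Finset.Ico 1 m, ‖h j‖ ^ 2) ≤ ∑ k ∈ Finset.Ico 1 N, ‖h k‖ ^ 2 :=
    Finset.sum_le_sum_of_subset_of_nonneg hsub fun _ _ _ => by positivity
  have e7 : (∑ j ∈ Finset.Ico 1 m, ‖g j‖ ^ 2) ≤ ∑ k ∈ Finset.Ico 1 N, ‖g k‖ ^ 2 :=
    Finset.sum_le_sum_of_subset_of_nonneg hsub fun _ _ _ => by positivity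
  calc ‖∑ j ∈ Finset.Ico 1 m, h j * g (m - j)‖ ^ 2
      ≤ (∑ j ∈ Finset.Ico 1 m, ‖h j‖ * ‖g (m - j)‖) ^ 2 :=
        pow_le_pow_left₀ (norm_nonneg _) e3 2
    _ ≤ (∑ j ∈ Finset.Ico 1 m, ‖h j‖ ^ 2) * (∑ j ∈ Finset.Ico 1 m, ‖g (m - j)‖ ^ 2) := e4
    _ = (∑ j ∈ Finset.Ico 1 m, ‖h j‖ ^ 2) * (∑ j ∈ Finset.Ico 1 m, ‖g j‖ ^ 2) := by rw [e5]
    _ ≤ _ := mul_le_mul e6 e7 (Finset.sum_nonneg fun _ _ => by positivity)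
        (Finset.sum_nonneg fun _ _ => by positivity)

theorem main : TaskS := by
  intro g h N hN g0 hrec hH
  set Hs : ℝ := ∑ k ∈ Finset.Ico 1 N, ‖h k‖ ^ 2 with hHs
  set Gs : ℝ := ∑ k ∈ Finset.Ico 1 N, ‖g k‖ ^ 2 with hGs
  have hH0 : 0 ≤ Hs := Finset.sum_nonneg fun _ _ => by positivity
  have hG0 : 0 ≤ Gs := Finset.sum_nonneg fun _ _ => by positivity
  have hk : ∀ k ∈ Finset.Ico 1 N, ‖g k‖ ^ 2 ≤
      5 / 4 * ‖h k‖ ^ 2 + 5 * (Hs * Gs) * ((k : ℝ) ^ 2)⁻¹ := by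
    intro k hk
    rw [Finset.mem_Ico] at hk
    have hk1 : (1 : ℝ) ≤ k := by exact_mod_cast hk.1
    have hs := step g h N k hk.1 hk.2.le g0 (hrec k hk.1)
    rw [← hHs, ← hGs] at hs
    have h1 : (k : ℝ) * ‖g k‖ ≤ ‖h k‖ + ‖(k : ℂ) * g k - h k‖ := by
      calc (k : ℝ) * ‖g k‖ = ‖(k : ℂ) * g k‖ := by
            rw [norm_mul, Complex.norm_natCast]
        _ = ‖h k + ((k : ℂ) * g k - h k)‖ := by
            congr 1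
            ring
        _ ≤ _ := norm_add_le _ _
    set b : ℝ := ‖(k : ℂ) * g k - h k‖ with hb
    have hb0 : 0 ≤ b := norm_nonneg _
    have h2 : ((k : ℝ) * ‖g k‖) ^ 2 ≤ 5 / 4 * ‖h k‖ ^ 2 + 5 * (Hs * Gs) := by
      calc ((k : ℝ) * ‖g k‖) ^ 2 ≤ (‖h k‖ + b) ^ 2 :=
            pow_le_pow_left₀ (by positivity) h1 2
        _ ≤ 5 / 4 * ‖h k‖ ^ 2 + 5 * b ^ 2 := by
            nlinarith [sq_nonneg (‖h k‖ - 4 * b)]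
        _ ≤ _ := by linarith
    have hk2 : (0 : ℝ) < (k : ℝ) ^ 2 := by positivity
    have hk3 : (1 : ℝ) ≤ (k : ℝ) ^ 2 := one_le_pow₀ hk1
    have h3 : ‖g k‖ ^ 2 ≤ (5 / 4 * ‖h k‖ ^ 2 + 5 * (Hs * Gs)) * ((k : ℝ) ^ 2)⁻¹ := by
      rw [← div_eq_mul_inv, le_div_iff₀ hk2]
      calc ‖g k‖ ^ 2 * (k : ℝ) ^ 2 = ((k : ℝ) * ‖g k‖) ^ 2 := by ring
        _ ≤ _ := h2
    have h4 : 5 / 4 * ‖h k‖ ^ 2 * ((k : ℝ) ^ 2)⁻¹ ≤ 5 / 4 * ‖h k‖ ^ 2 := by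
      have : ((k : ℝ) ^ 2)⁻¹ ≤ 1 := inv_le_one_of_one_le₀ hk3
      calc 5 / 4 * ‖h k‖ ^ 2 * ((k : ℝ) ^ 2)⁻¹ ≤ 5 / 4 * ‖h k‖ ^ 2 * 1 :=
            mul_le_mul_of_nonneg_left this (by positivity)
        _ = _ := mul_one _
    calc ‖g k‖ ^ 2 ≤ (5 / 4 * ‖h k‖ ^ 2 + 5 * (Hs * Gs)) * ((k : ℝ) ^ 2)⁻¹ := h3
      _ = 5 / 4 * ‖h k‖ ^ 2 * ((k : ℝ) ^ 2)⁻¹ + 5 * (Hs * Gs) * ((k : ℝ) ^ 2)⁻¹ := by ring
      _ ≤ _ := by linarith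
  have hinv : ∑ k ∈ Finset.Ico 1 N, ((k : ℝ) ^ 2)⁻¹ ≤ 2 := by
    have h1 := sum_Ioo_inv_sq_le (α := ℝ) 0 N
    have h2 : Finset.Ioo 0 N = Finset.Ico 1 N := by
      ext x
      simp only [Finset.mem_Ioo, Finset.mem_Ico]
      omega
    rw [h2] at h1
    simpa using h1
  have hsum : Gs ≤ 5 / 4 * Hs + 5 * (Hs * Gs) * 2 := by
    calc Gs ≤ ∑ k ∈ Finset.Ico 1 N, (5 / 4 * ‖h k‖ ^ 2 + 5 * (Hs * Gs) * ((k : ℝ) ^ 2)⁻¹) :=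
          Finset.sum_le_sum hk
      _ = 5 / 4 * Hs + 5 * (Hs * Gs) * ∑ k ∈ Finset.Ico 1 N, ((k : ℝ) ^ 2)⁻¹ := by
          rw [Finset.sum_add_distrib, ← Finset.mul_sum, ← Finset.mul_sum]
      _ ≤ _ := by
          have : 0 ≤ 5 * (Hs * Gs) := by positivity
          have := mul_le_mul_of_nonneg_left hinv this
          linarith
  have hG : Gs ≤ 25 / 18 * Hs := by nlinarith
  have hs := step g h N N hN le_rfl g0 (hrec N hN)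
  rw [← hHs, ← hGs] at hs
  have hfin : ‖(N : ℂ) * g N - h N‖ ^ 2 ≤ (6 / 5 * Hs) ^ 2 := by
    refine hs.trans ?_
    nlinarith
  exact (pow_le_pow_iff_left₀ (norm_nonneg _) (by positivity) two_ne_zero).1 hfin

end Pool.Agent.H21SS.S
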