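import Mathlib

/-!
# Strongly starlike functions of small order (MP_bdc337_an)

For `0 < α ≤ 1/200` and ALL `n ≥ 2` the sharp coefficient bound is `2 α / (n - 1)`.
Definitions and task statements.  All circle means are `Real.circleAverage _ 0 1`.
-/

set_option autoImplicit false

open Real Set Metric Complex

namespace Pool.Agent.H21SS

/-- strongly starlike functions of order `α` -/
structure SS (α : ℝ) (f : ℂ → ℂ) : Prop where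
  diff : DifferentiableOn ℂ f (ball 0 1)
  zero : f 0 = 0
  one : deriv f 0 = 1
  inj : InjOn f (ball 0 1)
  arg : ∀ z ∈ ball (0 : ℂ) 1, z ≠ 0 → |Complex.arg (z * deriv f z / f z)| < α * π / 2

/-- `n`-th Taylor coefficient at `0` -/
noncomputable def tc (f : ℂ → ℂ) (n : ℕ) : ℂ := iteratedDeriv n f 0 / (n.factorial : ℂ)

/-- mean of `F z / z ^ k` over the unit circle -/
noncomputable def cf (F : ℂ → ℂ) (k : ℕ) : ℂ := Real.circleAverage (fun z => F z * (z ^ k)⁻¹) 0 1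

/-- Poisson mean of a real function at the point `z` -/
noncomputable def PP (g : ℂ → ℝ) (z : ℂ) : ℝ :=
  Real.circleAverage (fun ζ => (‖ζ‖ ^ 2 - ‖z‖ ^ 2) / ‖ζ - z‖ ^ 2 * g ζ) 0 1

/-- K0. Poisson formula for the (discontinuous) boundary values of `Im log ((1+w)/(1-w))`,
`w = z ^ N`. (Dominated convergence `τ → 1-` in the Poisson formula for the analytic function
`log ((1 + τ z^N)/(1 - τ z^N))`, see `DiffContOnCl.circleAverage_poissonKernel_smul'`; for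
`|ζ| = 1`, `ζ^N ≠ ±1`, the quotient `(1+ζ^N)/(1-ζ^N)` is purely imaginary with the sign of
`Im ζ^N`.) -/
def TaskK0 : Prop := ∀ (N : ℕ) (z : ℂ), 1 ≤ N → ‖z‖ < 1 →
  Complex.arg ((1 + z ^ N) / (1 - z ^ N)) = PP (fun ζ => π / 2 * SignType.sign (ζ ^ N).im) z

/-- K1. Pointwise inequality. PROOF: `s = sign Im ζ^N`, `σ = |Im ζ^N|`, `δ = π/2 - s Im L ∈ [0,π]`
on the circle. By K0 and the Poisson formula for `L` the number `y` inside the square is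
`- PP (s δ)` up to sign, so `|y| ≤ PP δ`. For `b ∈ (0,1)`, `t = (1-b²)/b`,
`K = (1-b⁴)/(1 - 2 b² Re ζ^(2N) + b⁴) = Re ((1 + b² ζ^(2N))/(1 - b² ζ^(2N)))` one has
`1 ≤ σ/t + (t/2) K` on the circle (since `K = (1-b⁴)/(b²(t²+4σ²))`, `(1+b²)/b ≥ 2` and
`t²/(t²+4σ²) ≥ 1 - σ/t`, i.e. `σ (t-2σ)² ≥ 0`). Hence `δ ≤ δσ/t + (π t/2) K` and, with
`X = PP (δ σ)`, `PP K = Re ((1 + b² z^(2N))/(1 - b² z^(2N))) ≤ 5/3` (as `|z^(2N)| = 1/4`):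
`|y| ≤ X/t + (5π/6) t` for all `t > 0`, so `y² ≤ (10π/3) X`. -/
def TaskK1 : Prop := TaskK0 → ∀ (L : ℂ → ℂ) (R : ℝ) (N : ℕ), 1 < R →
  DifferentiableOn ℂ L (ball 0 R) → (∀ z : ℂ, ‖z‖ = 1 → |(L z).im| ≤ π / 2) → 1 ≤ N →
  ∀ z : ℂ, ‖z‖ ^ N = 1 / 2 →
    ((L z).im - Complex.arg ((1 + z ^ N) / (1 - z ^ N))) ^ 2 ≤
      10 * π / 3 * PP (fun ζ => π / 2 * |(ζ ^ N).im| - (L ζ).im * (ζ ^ N).im) z

/-- K2. The mean over a smaller circle of the Poisson means is the mean. (Fubini; the kernel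
depends only on `θ - φ` and has mean `1`.) -/
def TaskK2 : Prop := ∀ (g : ℂ → ℝ) (r : ℝ), ContinuousOn g (sphere 0 1) → 0 < r → r < 1 →
  Real.circleAverage (fun z => PP g (r * z)) 0 1 = Real.circleAverage g 0 1

/-- K3. The mean of the function in K1. (`mean |Im ζ^N| = 2/π`; `mean (L ζ^N) = 0`,
`mean (L ζ^(-N)) = cf L N`, `Im ζ^N = (ζ^N - ζ^(-N))/(2i)` on the circle.) -/
def TaskK3 : Prop := ∀ (L : ℂ → ℂ) (R : ℝ) (N : ℕ), 1 < R →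
  DifferentiableOn ℂ L (ball 0 R) → 1 ≤ N →
    Real.circleAverage (fun ζ => π / 2 * |(ζ ^ N).im| - (L ζ).im * (ζ ^ N).im) 0 1 =
      1 - (cf L N).re / 2

/-- E. Exponential estimates. PROOF: `V = x + i y`, `|y| ≤ π`, `M = mean y²`. With `λ = 1/3`:
`mean cosh (λ V) = 1`, so `mean ((cosh λx - 1) cos λy) = mean (1 - cos λy) ≤ (λ²/2) M`,
`cos λy ≥ 1/2`, so `mean (cosh λx - 1) ≤ λ² M`. `cosh u - 1 ≥ (u²/8) e^{|u|/2}`
(`cosh 2v - 1 = 2 sinh² v`, `sinh v = 2 sinh (v/2) cosh (v/2) ≥ v e^{v/2}/2`), so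
`mean (x² e^{4α|x|}) ≤ 8 M` (`4α ≤ λ/2`); `y² e^{2α|x|} ≤ y² + πα (y² + x² e^{4α|x|})`
(`e^u - 1 ≤ u e^u`, `2|x||y| e^{2α|x|} ≤ y² + x² e^{4α|x|}`), so
`mean ((x²+y²) e^{2α|x|}) ≤ 10 M`. Finally `|e^w - 1| ≤ |w| e^{|Re w|}`,
`|e^w - 1 - w| ≤ |w|² e^{|Re w|}/2`. -/
def TaskE : Prop := ∀ (V : ℂ → ℂ) (R α : ℝ), 1 < R → DifferentiableOn ℂ V (ball 0 R) → V 0 = 0 →
  (∀ z : ℂ, ‖z‖ = 1 → |(V z).im| ≤ π) → 0 < α → α ≤ 1 / 200 →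
    Real.circleAverage (fun z => ‖Complex.exp (α * V z) - 1‖ ^ 2) 0 1 ≤
      10 * α ^ 2 * Real.circleAverage (fun z => (V z).im ^ 2) 0 1 ∧
    Real.circleAverage (fun z => ‖Complex.exp (α * V z) - 1 - α * V z‖) 0 1 ≤
      5 * α ^ 2 * Real.circleAverage (fun z => (V z).im ^ 2) 0 1

/-- C. Facts on the coefficients `cf` of functions analytic in a disc of radius `> 1`:
Taylor coefficients, Cauchy product, Euler operator, Bessel, vanishing, dilation. -/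
def TaskC : Prop := ∀ (F G : ℂ → ℂ) (R : ℝ), 1 < R → DifferentiableOn ℂ F (ball 0 R) →
  DifferentiableOn ℂ G (ball 0 R) →
    (∀ k, cf F k = tc F k) ∧
    (∀ N, cf (fun z => F z * G z) N = ∑ k ∈ Finset.range (N + 1), cf F k * cf G (N - k)) ∧
    (∀ N, cf (fun z => z * deriv F z) N = N * cf F N) ∧
    (∀ s : Finset ℕ, ∑ k ∈ s, ‖cf F k‖ ^ 2 ≤ Real.circleAverage (fun z => ‖F z‖ ^ 2) 0 1) ∧
    (∀ m k, k < m → cf (fun z => z ^ m * F z) k = 0) ∧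
    (∀ (r : ℝ) (N : ℕ), 0 < r → r ≤ 1 → cf (fun z => F (r * z)) N = r ^ N * cf F N)

/-- S. Recursion. PROOF: `Γ² = ∑_{1≤k<N} |g k|²`, `H² = ∑_{1≤k<N} |h k|²`; by Cauchy-Schwarz
`k |g k| ≤ |h k| + H Γ`, so `Γ² ≤ (5/4) H² + 5 H² Γ² · 2` (`∑ 1/k² ≤ 2`), so `Γ² ≤ 1.44 H²`
and `|N g N - h N| ≤ H Γ ≤ 1.2 H²`. -/
def TaskS : Prop := ∀ (g h : ℕ → ℂ) (N : ℕ), 1 ≤ N → g 0 = 1 →
  (∀ k : ℕ, 1 ≤ k → (k : ℂ) * g k = ∑ j ∈ Finset.Icc 1 k, h j * g (k - j)) →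
  ∑ k ∈ Finset.Ico 1 N, ‖h k‖ ^ 2 ≤ 1 / 100 →
    ‖(N : ℂ) * g N - h N‖ ≤ 6 / 5 * ∑ k ∈ Finset.Ico 1 N, ‖h k‖ ^ 2

/-- X. The extremal function: `f(z) = z exp (∫₀^z (((1+t^(n-1))/(1-t^(n-1)))^α - 1)/t dt)`,
`z f'/f = ((1+z^(n-1))/(1-z^(n-1)))^α`. (Injectivity: `starlike_of_pos` in
`Pool/Agent/Helper974/Star/A12M.lean` or `Pool/Agent/Helper968/Schild/Starlike.lean` on origin/main.
Coefficient: `f = z (1 + (2α/(n-1)) z^(n-1) + ...)`.) -/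
def TaskX : Prop := ∀ (α : ℝ) (n : ℕ), 0 < α → α < 1 → 2 ≤ n →
  ∃ f : ℂ → ℂ, SS α f ∧ ‖tc f n‖ = 2 * α / (n - 1)

end Pool.Agent.H21SS
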