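import Pool.Agent.H21SS.Stmts

set_option autoImplicit false

open Real Set Metric Complex

namespace Pool.Agent.H21SS

namespace C802

theorem cav_eq_tc (F : ℂ → ℂ) (R ρ : ℝ) (hρ : 0 < ρ) (hρR : ρ < R)
    (hF : DifferentiableOn ℂ F (ball 0 R)) (k : ℕ) :
    Real.circleAverage (fun z => F z * (z ^ k)⁻¹) 0 ρ = tc F k := by
  have hcl : DifferentiableOn ℂ F (closedBall 0 ρ) := hF.mono (closedBall_subset_ball hρR)
  have h := hcl.circleIntegral_one_div_sub_center_pow_smul hρ k
  rw [Real.circleAverage_eq_circleIntegral hρ.ne']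
  have h2 : (∮ z in C(0, ρ), (z - 0)⁻¹ • (F z * (z ^ k)⁻¹)) =
      ∮ z in C(0, ρ), (1 / (z - 0) ^ (k + 1)) • F z := by
    apply circleIntegral.integral_congr hρ.le
    intro z hz
    simp only [sub_zero, smul_eq_mul]
    rw [pow_succ, one_div, mul_inv]
    ring
  rw [h2, h]
  unfold tc
  have hpi : (2 * (π : ℂ) * Complex.I) ≠ 0 := Complex.two_pi_I_ne_zero
  simp only [smul_eq_mul]
  field_simp

theorem cf_eq_tc (F : ℂ → ℂ) (R : ℝ) (hR : 1 < R) (hF : DifferentiableOn ℂ F (ball 0 R)) (k : ℕ) :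
    cf F k = tc F k := cav_eq_tc F R 1 one_pos hR hF k

theorem tc_mul (F G : ℂ → ℂ) (R : ℝ) (hR : 1 < R) (hF : DifferentiableOn ℂ F (ball 0 R))
    (hG : DifferentiableOn ℂ G (ball 0 R)) (N : ℕ) :
    tc (fun z => F z * G z) N = ∑ k ∈ Finset.range (N + 1), tc F k * tc G (N - k) := by
  have h0 : ball (0 : ℂ) R ∈ nhds (0 : ℂ) := ball_mem_nhds _ (by linarith)
  have hFc : ContDiffAt ℂ N F 0 := (hF.analyticAt h0).contDiffAt
  have hGc : ContDiffAt ℂ N G 0 := (hG.analyticAt h0).contDiffAt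
  unfold tc
  rw [iteratedDeriv_fun_mul hFc hGc, Finset.sum_div]
  apply Finset.sum_congr rfl
  intro k hk
  rw [Finset.mem_range] at hk
  have hk' : k ≤ N := by omega
  have hch : (N.choose k : ℂ) * (k.factorial * (N - k).factorial) = N.factorial := by
    have := Nat.choose_mul_factorial_mul_factorial hk'
    rw [mul_assoc] at this
    exact_mod_cast this
  have h1 : (k.factorial : ℂ) ≠ 0 := by exact_mod_cast k.factorial_ne_zero
  have h2 : ((N - k).factorial : ℂ) ≠ 0 := by exact_mod_cast (N - k).factorial_ne_zero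
  have h3 : (N.factorial : ℂ) ≠ 0 := by exact_mod_cast N.factorial_ne_zero
  rw [div_mul_div_comm, div_eq_div_iff h3 (mul_ne_zero h1 h2), ← hch]
  ring

theorem cf_mul (F G : ℂ → ℂ) (R : ℝ) (hR : 1 < R) (hF : DifferentiableOn ℂ F (ball 0 R))
    (hG : DifferentiableOn ℂ G (ball 0 R)) (N : ℕ) :
    cf (fun z => F z * G z) N = ∑ k ∈ Finset.range (N + 1), cf F k * cf G (N - k) := by
  have hFG : DifferentiableOn ℂ (fun z => F z * G z) (ball 0 R) := hF.mul hG
  rw [cf_eq_tc _ R hR hFG, tc_mul F G R hR hF hG]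
  apply Finset.sum_congr rfl
  intro k _
  rw [cf_eq_tc F R hR hF, cf_eq_tc G R hR hG]

theorem tc_pow (m k : ℕ) : tc (fun z => z ^ m) k = if k = m then 1 else 0 := by
  unfold tc
  rw [iteratedDeriv_fun_pow_zero]
  split_ifs with h
  · subst h
    have h1 : (k.factorial : ℂ) ≠ 0 := by exact_mod_cast k.factorial_ne_zero
    exact div_self h1
  · simp

theorem cf_euler (F : ℂ → ℂ) (R : ℝ) (hR : 1 < R) (hF : DifferentiableOn ℂ F (ball 0 R)) (N : ℕ) :
    cf (fun z => z * deriv F z) N = N * cf F N := by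
  have hd : DifferentiableOn ℂ (deriv F) (ball 0 R) := hF.deriv isOpen_ball
  have hid : DifferentiableOn ℂ (fun z : ℂ => z ^ 1) (ball 0 R) := by fun_prop
  have h1 : (fun z => z * deriv F z) = fun z => z ^ 1 * deriv F z := by funext z; rw [pow_one]
  rw [h1, cf_mul _ _ R hR hid hd, cf_eq_tc F R hR hF]
  have h2 : ∀ k ∈ Finset.range (N + 1), cf (fun z : ℂ => z ^ 1) k * cf (deriv F) (N - k) =
      if k = 1 then tc (deriv F) (N - 1) else 0 := by
    intro k _
    rw [cf_eq_tc _ R hR hid, tc_pow, cf_eq_tc _ R hR hd]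
    split_ifs with h
    · subst h; rw [one_mul]
    · rw [zero_mul]
  rw [Finset.sum_congr rfl h2, Finset.sum_ite_eq']
  rcases N with _ | N
  · simp
  · rw [if_pos (by simp)]
    unfold tc
    rw [Nat.add_sub_cancel, ← iteratedDeriv_succ', Nat.factorial_succ]
    have h1 : (N.factorial : ℂ) ≠ 0 := by exact_mod_cast N.factorial_ne_zero
    have h2 : ((N : ℂ) + 1) ≠ 0 := by exact_mod_cast N.succ_ne_zero
    push_cast
    field_simp

theorem cf_vanish (F : ℂ → ℂ) (R : ℝ) (hR : 1 < R) (hF : DifferentiableOn ℂ F (ball 0 R))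
    (m k : ℕ) (hk : k < m) : cf (fun z => z ^ m * F z) k = 0 := by
  have hp : DifferentiableOn ℂ (fun z : ℂ => z ^ m) (ball 0 R) := by fun_prop
  rw [cf_mul _ _ R hR hp hF]
  apply Finset.sum_eq_zero
  intro j hj
  rw [Finset.mem_range] at hj
  rw [cf_eq_tc _ R hR hp, tc_pow, if_neg (by omega), zero_mul]

theorem cf_dil (F : ℂ → ℂ) (R : ℝ) (hR : 1 < R) (hF : DifferentiableOn ℂ F (ball 0 R))
    (r : ℝ) (N : ℕ) (hr : 0 < r) (hr1 : r ≤ 1) :
    cf (fun z => F (r * z)) N = r ^ N * cf F N := by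
  rw [cf_eq_tc F R hR hF, ← cav_eq_tc F R r hr (by linarith) hF,
    Real.circleAverage_eq_circleAverage_zero_one]
  have h1 : (r : ℂ) ^ N * Real.circleAverage (fun z => F (r * z + 0) * ((r * z + 0) ^ N)⁻¹) 0 1 =
      Real.circleAverage (fun z => ((r : ℂ) ^ N) • (F (r * z + 0) * ((r * z + 0) ^ N)⁻¹)) 0 1 := by
    rw [Real.circleAverage_fun_smul, smul_eq_mul]
  rw [h1]
  unfold cf
  apply Real.circleAverage_congr_sphere
  intro z hz
  have hrc : (r : ℂ) ≠ 0 := by exact_mod_cast hr.ne'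
  simp only [add_zero, smul_eq_mul]
  rw [mul_pow, mul_inv]
  field_simp

theorem cI {f : ℂ → ℂ} (hf : ContinuousOn f (sphere 0 1)) : CircleIntegrable f 0 1 :=
  hf.circleIntegrable zero_le_one

theorem cIr {f : ℂ → ℝ} (hf : ContinuousOn f (sphere 0 1)) : CircleIntegrable f 0 1 :=
  hf.circleIntegrable zero_le_one

theorem bessel (F : ℂ → ℂ) (hF : ContinuousOn F (sphere 0 1)) (s : Finset ℕ) :
    ∑ k ∈ s, ‖cf F k‖ ^ 2 ≤ Real.circleAverage (fun z => ‖F z‖ ^ 2) 0 1 := by
  classical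
  set p : Polynomial ℂ := ∑ k ∈ s, Polynomial.monomial k (cf F k) with hp
  have hcoeff : ∀ k, p.coeff k = if k ∈ s then cf F k else 0 := by
    intro k
    rw [hp, Polynomial.finsetSum_coeff]
    simp only [Polynomial.coeff_monomial]
    rw [Finset.sum_ite_eq']
  have hsupp : p.support ⊆ s := by
    intro k hk
    rw [Polynomial.mem_support_iff, hcoeff] at hk
    by_contra h
    rw [if_neg h] at hk
    exact hk rfl
  have hpars : ∑ k ∈ s, ‖cf F k‖ ^ 2 = Real.circleAverage (fun z => ‖p.eval z‖ ^ 2) 0 1 := by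
    rw [← Polynomial.sum_sq_norm_coeff_eq_circleAverage]
    rw [Finset.sum_subset hsupp]
    · apply Finset.sum_congr rfl
      intro k hk
      rw [hcoeff, if_pos hk]
    · intro k _ hk
      rw [Polynomial.notMem_support_iff] at hk
      rw [hk]; simp
  have heval : ∀ z, p.eval z = ∑ k ∈ s, cf F k * z ^ k := by
    intro z
    rw [hp, Polynomial.eval_finsetSum]
    apply Finset.sum_congr rfl
    intro k _
    rw [Polynomial.eval_monomial]
  have hz0 : ∀ z ∈ sphere (0 : ℂ) 1, z ≠ 0 := by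
    intro z hz h
    rw [mem_sphere_zero_iff_norm] at hz
    rw [h, norm_zero] at hz
    exact zero_ne_one hz
  have hpc : ContinuousOn (fun z => p.eval z) (sphere (0 : ℂ) 1) := p.continuous.continuousOn
  have hinv : ∀ k : ℕ, ContinuousOn (fun z : ℂ => (z ^ k)⁻¹) (sphere (0 : ℂ) 1) := by
    intro k
    apply ContinuousOn.inv₀ (by fun_prop)
    intro z hz
    exact pow_ne_zero _ (hz0 z hz)
  have hmix : Real.circleAverage (fun z => F z * (starRingEnd ℂ) (p.eval z)) 0 1 =
      ((∑ k ∈ s, ‖cf F k‖ ^ 2 : ℝ) : ℂ) := by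
    have h1 : Real.circleAverage (fun z => F z * (starRingEnd ℂ) (p.eval z)) 0 1 =
        Real.circleAverage (fun z => ∑ k ∈ s, ((starRingEnd ℂ) (cf F k)) • (F z * (z ^ k)⁻¹)) 0 1 := by
      apply Real.circleAverage_congr_sphere
      intro z hz
      rw [abs_one, mem_sphere_zero_iff_norm] at hz
      have hz1 : z * (starRingEnd ℂ) z = 1 := by
        rw [Complex.mul_conj, Complex.normSq_eq_norm_sq, hz]; simp
      have hzi : (starRingEnd ℂ) z = z⁻¹ := eq_inv_of_mul_eq_one_right hz1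
      simp only [heval, map_sum, map_mul, map_pow, hzi, Finset.mul_sum, smul_eq_mul, inv_pow]
      apply Finset.sum_congr rfl
      intro k _
      ring
    rw [h1, Real.circleAverage_fun_sum]
    · push_cast
      apply Finset.sum_congr rfl
      intro k _
      rw [Real.circleAverage_fun_smul, smul_eq_mul]
      have : Real.circleAverage (fun z => F z * (z ^ k)⁻¹) 0 1 = cf F k := rfl
      rw [this, mul_comm, Complex.mul_conj, Complex.normSq_eq_norm_sq]
      push_cast; rfl
    · intro k _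
      apply cI
      have hcc : ContinuousOn (fun z => (starRingEnd ℂ) (cf F k) * (F z * (z ^ k)⁻¹))
          (sphere (0 : ℂ) 1) := continuousOn_const.mul (hF.mul (hinv k))
      exact hcc
  have hmixc : ContinuousOn (fun z => F z * (starRingEnd ℂ) (p.eval z)) (sphere (0 : ℂ) 1) :=
    hF.mul (Complex.continuous_conj.comp_continuousOn hpc)
  have hre : Real.circleAverage (fun z => (F z * (starRingEnd ℂ) (p.eval z)).re) 0 1 =
      ∑ k ∈ s, ‖cf F k‖ ^ 2 := by
    have h2 := Complex.reCLM.circleAverage_comp_comm (cI hmixc)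
    rw [hmix, Complex.reCLM_apply, Complex.ofReal_re] at h2
    exact h2
  have hnn : 0 ≤ Real.circleAverage (fun z => ‖F z - p.eval z‖ ^ 2) 0 1 := by
    apply Real.circleAverage_nonneg_of_nonneg
    intro z _
    positivity
  have hexp : Real.circleAverage (fun z => ‖F z - p.eval z‖ ^ 2) 0 1 =
      Real.circleAverage (fun z => ‖F z‖ ^ 2) 0 1 -
        2 * Real.circleAverage (fun z => (F z * (starRingEnd ℂ) (p.eval z)).re) 0 1 +
        Real.circleAverage (fun z => ‖p.eval z‖ ^ 2) 0 1 := by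
    have h3 : (fun z => ‖F z - p.eval z‖ ^ 2) = fun z => (‖F z‖ ^ 2 -
        (2 : ℝ) • (F z * (starRingEnd ℂ) (p.eval z)).re) + ‖p.eval z‖ ^ 2 := by
      funext z
      have h4 : ‖F z - p.eval z‖ ^ 2 = ‖F z‖ ^ 2 + ‖p.eval z‖ ^ 2 -
          2 * (F z * (starRingEnd ℂ) (p.eval z)).re := by
        rw [← Complex.normSq_eq_norm_sq, ← Complex.normSq_eq_norm_sq, ← Complex.normSq_eq_norm_sq,
          Complex.normSq_sub]
      rw [h4, smul_eq_mul]
      ring
    have i1 : CircleIntegrable (fun z => ‖F z‖ ^ 2) 0 1 := cIr (hF.norm.pow 2)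
    have i2 : CircleIntegrable (fun z => (2 : ℝ) • (F z * (starRingEnd ℂ) (p.eval z)).re) 0 1 := by
      apply cIr
      have hcc : ContinuousOn (fun z => (2 : ℝ) * (F z * (starRingEnd ℂ) (p.eval z)).re)
          (sphere (0 : ℂ) 1) :=
        continuousOn_const.mul (Complex.continuous_re.comp_continuousOn hmixc)
      exact hcc
    have i3 : CircleIntegrable (fun z => ‖p.eval z‖ ^ 2) 0 1 := cIr (hpc.norm.pow 2)
    have i12 : CircleIntegrable (fun z => ‖F z‖ ^ 2 -
        (2 : ℝ) • (F z * (starRingEnd ℂ) (p.eval z)).re) 0 1 := i1.sub i2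
    rw [h3, Real.circleAverage_fun_add i12 i3, Real.circleAverage_fun_sub i1 i2,
      Real.circleAverage_fun_smul, smul_eq_mul]
  rw [hre, ← hpars] at hexp
  linarith

theorem main : TaskC := by
  intro F G R hR hF hG
  refine ⟨cf_eq_tc F R hR hF, cf_mul F G R hR hF hG, cf_euler F R hR hF, ?_,
    cf_vanish F R hR hF, cf_dil F R hR hF⟩
  intro s
  apply bessel
  apply hF.continuousOn.mono
  intro z hz
  rw [mem_sphere_zero_iff_norm] at hz
  rw [mem_ball_zero_iff, hz]
  exact hR

end C802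

theorem TaskC.main : TaskC := C802.main

end Pool.Agent.H21SS
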