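import Pool.Agent.H21SS.Stmts
import Pool.Agent.Helper968.Schild.Starlike

/-!
# The extremal strongly starlike function
-/

set_option autoImplicit false

open Real Set Metric Complex Topology

namespace Pool.Agent.H21SS.TaskX

open Pool.Agent.Helper968.Schild (starlike_of_pos starlike_aux_hasDeriv)

/-- the Cayley map -/
noncomputable def u (w : ℂ) : ℂ := (1 + w) / (1 - w)

/-- its power -/
noncomputable def P (α : ℝ) (w : ℂ) : ℂ := Complex.exp ((α : ℂ) * Complex.log (u w))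

lemma one_sub_ne {w : ℂ} (hw : ‖w‖ < 1) : 1 - w ≠ 0 := by
  intro h
  rw [← sub_eq_zero.mp h, norm_one] at hw
  exact lt_irrefl _ hw

lemma u_re {w : ℂ} (hw : ‖w‖ < 1) : 0 < (u w).re := by
  have h1 : 0 < Complex.normSq (1 - w) := Complex.normSq_pos.mpr (one_sub_ne hw)
  have h2 : (u w).re = (1 - ‖w‖ ^ 2) / Complex.normSq (1 - w) := by
    unfold u
    rw [Complex.div_re, ← add_div, ← Complex.normSq_eq_norm_sq, Complex.normSq_apply w]
    congr 1
    simp
    ring
  rw [h2]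
  apply div_pos _ h1
  nlinarith [norm_nonneg w]

lemma u_mem {w : ℂ} (hw : ‖w‖ < 1) : u w ∈ Complex.slitPlane := Or.inl (u_re hw)

lemma u_hasDeriv {w : ℂ} (hw : ‖w‖ < 1) : HasDerivAt u (2 / (1 - w) ^ 2) w := by
  have h1 : HasDerivAt (fun w : ℂ => 1 + w) 1 w := by
    simpa using (hasDerivAt_id w).const_add (1 : ℂ)
  have h2 : HasDerivAt (fun w : ℂ => 1 - w) (-1) w := by
    simpa using (hasDerivAt_id w).const_sub (1 : ℂ)
  have h3 := h1.div h2 (one_sub_ne hw)
  have h4 : (1 * (1 - w) - (1 + w) * -1) / (1 - w) ^ 2 = 2 / (1 - w) ^ 2 := by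
    congr 1
    ring
  rw [h4] at h3
  exact h3

lemma P_hasDeriv (α : ℝ) {w : ℂ} (hw : ‖w‖ < 1) :
    HasDerivAt (P α) (P α w * ((α : ℂ) * (2 / (1 - w) ^ 2 / u w))) w := by
  have h1 := ((u_hasDeriv hw).clog (u_mem hw)).const_mul (α : ℂ)
  exact h1.cexp

lemma P_diff (α : ℝ) : DifferentiableOn ℂ (P α) (ball 0 1) := fun w hw =>
  (P_hasDeriv α (mem_ball_zero_iff.mp hw)).differentiableAt.differentiableWithinAt

lemma P_zero (α : ℝ) : P α 0 = 1 := by
  unfold P u
  simp

lemma P_deriv_zero (α : ℝ) : deriv (P α) 0 = 2 * α := by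
  have h := (P_hasDeriv α (w := 0) (by simp)).deriv
  rw [h, P_zero]
  unfold u
  simp
  ring

lemma P_arg {α : ℝ} (h0 : 0 < α) (h1 : α < 1) {w : ℂ} (hw : ‖w‖ < 1) :
    |Complex.arg (P α w)| < α * π / 2 := by
  have h2 : |Complex.arg (u w)| < π / 2 :=
    Complex.abs_arg_lt_pi_div_two_iff.mpr (Or.inl (u_re hw))
  have h3 : ((α : ℂ) * Complex.log (u w)).im = α * Complex.arg (u w) := by
    rw [Complex.im_ofReal_mul, Complex.log_im]
  have h4 : |((α : ℂ) * Complex.log (u w)).im| < α * π / 2 := by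
    rw [h3, abs_mul, abs_of_pos h0]
    calc α * |Complex.arg (u w)| < α * (π / 2) := mul_lt_mul_of_pos_left h2 h0
      _ = α * π / 2 := by ring
  have hpi := Real.pi_pos
  have h5 : α * π / 2 < π := by nlinarith
  have h6 := abs_lt.mp h4
  have h7 : Complex.arg (P α w) = ((α : ℂ) * Complex.log (u w)).im := by
    rw [← Complex.log_im (P α w)]
    unfold P
    rw [Complex.log_exp (by linarith) (by linarith)]
  rw [h7]
  exact h4

lemma P_re {α : ℝ} (h0 : 0 < α) (h1 : α < 1) {w : ℂ} (hw : ‖w‖ < 1) : 0 < (P α w).re := by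
  have h2 := P_arg h0 h1 hw
  have hpi := Real.pi_pos
  have h3 : |Complex.arg (P α w)| < π / 2 := by
    refine h2.trans ?_
    nlinarith
  rcases Complex.abs_arg_lt_pi_div_two_iff.mp h3 with h | h
  · exact h
  · exact absurd h (Complex.exp_ne_zero _)

lemma pow_mem {m : ℕ} (hm : 1 ≤ m) {z : ℂ} (hz : z ∈ ball (0 : ℂ) 1) :
    z ^ m ∈ ball (0 : ℂ) 1 := by
  rw [mem_ball_zero_iff] at hz ⊢
  rw [norm_pow]
  exact pow_lt_one₀ (norm_nonneg _) hz (by omega)

/-- the Taylor coefficient of `z G(z ^ m)` -/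
lemma coeff_main (m : ℕ) (hm : 1 ≤ m) (G : ℂ → ℂ) (hG : DifferentiableOn ℂ G (ball 0 1))
    (hG0 : G 0 = 1) (f : ℂ → ℂ) (hf : ∀ z ∈ ball (0 : ℂ) 1, f z = z * G (z ^ m)) :
    iteratedDeriv (m + 1) f 0 = deriv G 0 * ((m + 1).factorial : ℂ) := by
  have hnhds : ball (0 : ℂ) 1 ∈ 𝓝 (0 : ℂ) := isOpen_ball.mem_nhds (by simp)
  set g1 := dslope G 0 with hg1
  have hg1d : DifferentiableOn ℂ g1 (ball 0 1) := (Complex.differentiableOn_dslope hnhds).mpr hG
  set g2 := dslope g1 0 with hg2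
  have hg2d : DifferentiableOn ℂ g2 (ball 0 1) := (Complex.differentiableOn_dslope hnhds).mpr hg1d
  have hg10 : g1 0 = deriv G 0 := dslope_same _ _
  have e1 : ∀ w, G w = 1 + w * g1 w := by
    intro w
    have := sub_smul_dslope G 0 w
    rw [sub_zero, smul_eq_mul, hG0] at this
    rw [hg1, this]
    ring
  have e2 : ∀ w, g1 w = deriv G 0 + w * g2 w := by
    intro w
    have := sub_smul_dslope g1 0 w
    rw [sub_zero, smul_eq_mul, hg10] at this
    rw [hg2, this]
    ring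
  have hpowd : ∀ F : ℂ → ℂ, DifferentiableOn ℂ F (ball 0 1) →
      DifferentiableOn ℂ (fun z => F (z ^ m)) (ball 0 1) := by
    intro F hF
    exact hF.comp (differentiable_pow m).differentiableOn (fun z hz => pow_mem hm hz)
  have hfd : DifferentiableOn ℂ f (ball 0 1) := by
    have h1 : DifferentiableOn ℂ (fun z => z * G (z ^ m)) (ball 0 1) :=
      differentiableOn_id.mul (hpowd G hG)
    exact h1.congr hf
  have hfa : AnalyticAt ℂ f 0 := hfd.analyticAt hnhds
  have hpa : AnalyticAt ℂ (fun z : ℂ => z ^ 1 + deriv G 0 * z ^ (m + 1)) 0 := by fun_prop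
  set E : ℂ → ℂ := fun z => f z - (z ^ 1 + deriv G 0 * z ^ (m + 1)) with hE
  have hEa : AnalyticAt ℂ E 0 := hfa.sub hpa
  have hE0 : iteratedDeriv (m + 1) E 0 = 0 := by
    apply (natCast_le_analyticOrderAt_iff_iteratedDeriv_eq_zero (n := m + 2) hEa).mp _ (m + 1)
      (by omega)
    rw [natCast_le_analyticOrderAt hEa]
    refine ⟨fun z => z ^ (m - 1) * g2 (z ^ m), ?_, ?_⟩
    · have h1 : DifferentiableOn ℂ (fun z : ℂ => z ^ (m - 1) * g2 (z ^ m)) (ball 0 1) :=
        (differentiable_pow (m - 1)).differentiableOn.mul (hpowd g2 hg2d)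
      exact h1.analyticAt hnhds
    · filter_upwards [hnhds] with z hz
      rw [hE]
      simp only
      rw [hf z hz, e1, e2, sub_zero, smul_eq_mul]
      obtain ⟨j, rfl⟩ : ∃ j, m = j + 1 := ⟨m - 1, by omega⟩
      rw [Nat.add_sub_cancel]
      ring
  have hsub : iteratedDeriv (m + 1) E 0 = iteratedDeriv (m + 1) f 0 -
      iteratedDeriv (m + 1) (fun z : ℂ => z ^ 1 + deriv G 0 * z ^ (m + 1)) 0 :=
    iteratedDeriv_fun_sub hfa.contDiffAt hpa.contDiffAt
  have hpoly : iteratedDeriv (m + 1) (fun z : ℂ => z ^ 1 + deriv G 0 * z ^ (m + 1)) 0 =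
      deriv G 0 * ((m + 1).factorial : ℂ) := by
    rw [iteratedDeriv_fun_add (by fun_prop) (by fun_prop), iteratedDeriv_fun_pow_zero,
      iteratedDeriv_const_mul_field, iteratedDeriv_fun_pow_zero, if_neg (by omega), if_pos rfl,
      Nat.cast_zero, zero_add]
  rw [hE0, hpoly] at hsub
  exact (sub_eq_zero.mp hsub.symm)

theorem main : Pool.Agent.H21SS.TaskX := by
  intro α n h0 h1 hn
  obtain ⟨m, hm, rfl⟩ : ∃ m, 1 ≤ m ∧ n = m + 1 := ⟨n - 1, by omega, by omega⟩
  have hnhds : ball (0 : ℂ) 1 ∈ 𝓝 (0 : ℂ) := isOpen_ball.mem_nhds (by simp)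
  have hmC : (m : ℂ) ≠ 0 := by exact_mod_cast (by omega : m ≠ 0)
  set q := dslope (P α) 0 with hq
  have hqd : DifferentiableOn ℂ q (ball 0 1) :=
    (Complex.differentiableOn_dslope hnhds).mpr (P_diff α)
  have hq0 : q 0 = 2 * α := by rw [hq, dslope_same, P_deriv_zero]
  have hq1 : ∀ w, w * q w = P α w - 1 := by
    intro w
    have := sub_smul_dslope (P α) 0 w
    rwa [sub_zero, smul_eq_mul, P_zero] at this
  obtain ⟨Q, hQ0, hQd⟩ := hqd.isExactOn_ball.with_val_at 0 0
  set h : ℂ → ℂ := fun z => Q (z ^ m) / m with hh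
  have hhd : ∀ z ∈ ball (0 : ℂ) 1, HasDerivAt h (z ^ (m - 1) * q (z ^ m)) z := by
    intro z hz
    have e1 := (hQd _ (pow_mem hm hz)).comp z (hasDerivAt_pow m z)
    have e2 := e1.div_const (m : ℂ)
    have e3 : q (z ^ m) * (↑m * z ^ (m - 1)) / ↑m = z ^ (m - 1) * q (z ^ m) := by
      field_simp
    rw [e3] at e2
    exact e2
  have hhD : DifferentiableOn ℂ h (ball 0 1) := fun z hz =>
    (hhd z hz).differentiableAt.differentiableWithinAt
  have hzh : ∀ z ∈ ball (0 : ℂ) 1, 1 + z * deriv h z = P α (z ^ m) := by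
    intro z hz
    rw [(hhd z hz).deriv, ← mul_assoc, ← pow_succ', Nat.sub_add_cancel hm, hq1]
    ring
  have hh0 : h 0 = 0 := by
    rw [hh]
    simp only
    rw [zero_pow (by omega), hQ0, zero_div]
  have hstar := starlike_of_pos hhD (fun z hz => by
    rw [hzh z hz]
    exact P_re h0 h1 (mem_ball_zero_iff.mp (pow_mem hm hz)))
  have hfd := fun z hz => starlike_aux_hasDeriv hhD z hz
  refine ⟨fun z => z * Complex.exp (h z), ⟨?_, ?_, ?_, hstar.1, ?_⟩, ?_⟩
  · exact fun z hz => (hfd z hz).differentiableAt.differentiableWithinAt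
  · simp
  · rw [(hfd 0 (by simp)).deriv, hh0, zero_mul, add_zero, Complex.exp_zero, mul_one]
  · intro z hz hz0
    rw [(hfd z hz).deriv, hzh z hz]
    have e1 : z * (Complex.exp (h z) * P α (z ^ m)) / (z * Complex.exp (h z)) = P α (z ^ m) := by
      have := Complex.exp_ne_zero (h z)
      field_simp
    rw [e1]
    exact P_arg h0 h1 (mem_ball_zero_iff.mp (pow_mem hm hz))
  · set G : ℂ → ℂ := fun w => Complex.exp (Q w / m) with hG
    have hGd : ∀ w ∈ ball (0 : ℂ) 1, HasDerivAt G (Complex.exp (Q w / m) * (q w / m)) w :=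
      fun w hw => ((hQd w hw).div_const (m : ℂ)).cexp
    have hG0 : G 0 = 1 := by
      rw [hG]
      simp only
      rw [hQ0, zero_div, Complex.exp_zero]
    have hG1 : deriv G 0 = 2 * α / m := by
      rw [(hGd 0 (by simp)).deriv, hQ0, zero_div, Complex.exp_zero, one_mul, hq0]
    have hc := coeff_main m hm G
      (fun w hw => (hGd w hw).differentiableAt.differentiableWithinAt) hG0
      (fun z => z * Complex.exp (h z)) (fun z _ => rfl)
    unfold tc
    rw [hc, hG1, mul_div_assoc, div_self (by exact_mod_cast Nat.factorial_ne_zero _), mul_one,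
      norm_div, norm_mul, Complex.norm_natCast, Complex.norm_real, Real.norm_of_nonneg h0.le]
    push_cast
    rw [add_sub_cancel_right]
    norm_num

end Pool.Agent.H21SS.TaskX
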